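import Pool.Agent.Helper78.KD.Defs

/-!
# KD block K9b: finitely many test functions detect the discrepancy
-/

set_option autoImplicit false
set_option linter.unusedVariables false

namespace Pool.Agent.Helper78.KD

open MeasureTheory Set Filter Topology

private lemma le_tz67 {η : ℝ} (h0 : 0 < η) (t : ℝ) : (⌊t + 1 - η⌋ : ℝ) ≤ tz η t := by
  unfold tz
  have ht : (⌊t⌋ : ℝ) + Int.fract t = t := Int.floor_add_fract t
  have hf0 := Int.fract_nonneg t
  rcases le_or_gt η (Int.fract t) with h | h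
  · have h1 : (1 : ℝ) ≤ Int.fract t / η := by
      rw [le_div_iff₀ h0]
      linarith
    rw [min_eq_left h1]
    have h2 : ⌊t + 1 - η⌋ < ⌊t⌋ + 2 := by
      rw [Int.floor_lt]
      push_cast
      have := Int.lt_floor_add_one t
      linarith
    have h3 : ⌊t + 1 - η⌋ ≤ ⌊t⌋ + 1 := by omega
    exact_mod_cast h3
  · have h2 : ⌊t + 1 - η⌋ < ⌊t⌋ + 1 := by
      rw [Int.floor_lt]
      push_cast
      linarith
    have h3 : ⌊t + 1 - η⌋ ≤ ⌊t⌋ := by omega
    have h4 : (⌊t + 1 - η⌋ : ℝ) ≤ ⌊t⌋ := by exact_mod_cast h3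
    have h5 : 0 ≤ min 1 (Int.fract t / η) := le_min zero_le_one (div_nonneg hf0 h0.le)
    linarith

private lemma tz_le67 (η t : ℝ) : tz η t ≤ (⌊t⌋ : ℝ) + 1 := by
  unfold tz
  have := min_le_left (1 : ℝ) (Int.fract t / η)
  linarith

private lemma tz_add67 (η t : ℝ) : tz η (t + 1) = tz η t + 1 := by
  unfold tz
  rw [Int.fract_add_one, Int.floor_add_one]
  push_cast
  ring

/-- the floor in terms of the fractional part -/
private lemma floor_sub67 {a : ℝ} (h0 : 0 ≤ a) (h1 : a ≤ 1) (t : ℝ) :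
    (⌊t - a⌋ : ℝ) = ⌊t⌋ - 1 + if a ≤ Int.fract t then 1 else 0 := by
  have ht : (⌊t⌋ : ℝ) + Int.fract t = t := Int.floor_add_fract t
  have hf0 := Int.fract_nonneg t
  have hf1 := Int.fract_lt_one t
  split_ifs with h
  · have : ⌊t - a⌋ = ⌊t⌋ := by
      rw [Int.floor_eq_iff]
      exact ⟨by linarith, by linarith⟩
    rw [this]
    ring
  · push Not at h
    have : ⌊t - a⌋ = ⌊t⌋ - 1 := by
      rw [Int.floor_eq_iff]
      push_cast
      exact ⟨by linarith, by linarith⟩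
    rw [this]
    push_cast
    ring

/-- the count -/
private lemma count67 {α β : ℝ} (h0 : 0 ≤ α) (h1 : α < β) (h2 : β ≤ 1) (u : ℕ → ℝ) (N : ℕ) :
    (((Finset.range N).filter (fun n => α ≤ Int.fract (u n) ∧ Int.fract (u n) < β)).card : ℝ) =
      ∑ n ∈ Finset.range N, ((⌊u n - α⌋ : ℝ) - ⌊u n - β⌋) := by
  rw [Finset.card_filter]
  push_cast
  refine Finset.sum_congr rfl fun n _ => ?_
  rw [floor_sub67 h0 (h1.le.trans h2), floor_sub67 (h0.trans h1.le) h2]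
  by_cases e1 : α ≤ Int.fract (u n)
  · by_cases e2 : Int.fract (u n) < β
    · rw [if_pos ⟨e1, e2⟩, if_pos e1, if_neg (not_le.mpr e2)]
      ring
    · rw [if_neg (fun h => e2 h.2), if_pos e1, if_pos (not_lt.mp e2)]
      ring
  · have e2 : Int.fract (u n) < β := (not_le.mp e1).trans h1
    rw [if_neg (fun h => e1 h.1), if_neg e1, if_neg (not_le.mpr e2)]
    ring

/-- finitely many test functions detect the discrepancy -/
theorem disc_grid {η : ℝ} (h0 : 0 < η) (h1 : η ≤ 1) : ∃ F : Finset (ℝ × ℝ), ∀ (u : ℕ → ℝ) (N : ℕ) (r : ℝ), 1 ≤ N →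
    r < disc u N → ∃ z ∈ F, (r - 4 * η) * N ≤ ∑ n ∈ Finset.range N, tr η z.1 z.2 (u n) ∨
      (r - 4 * η) * N ≤ ∑ n ∈ Finset.range N, - tr η z.1 z.2 (u n) := by
  classical
  obtain ⟨K, hK⟩ : ∃ K : ℕ, K = ⌈1 / η⌉₊ + 1 := ⟨_, rfl⟩
  let G : Finset (ℕ × ℕ) := Finset.range K ×ˢ Finset.range K
  refine ⟨G.image (fun p => (((p.2 : ℝ) * η - p.1 * η + η, -((p.2 : ℝ) * η)) : ℝ × ℝ)) ∪
    G.image (fun p => (((p.2 : ℝ) * η - p.1 * η - η, -((p.2 : ℝ) * η) + η) : ℝ × ℝ)), ?_⟩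
  intro u N r hN hr
  have hNpos : (0 : ℝ) < N := by exact_mod_cast hN
  have hne : {r : ℝ | ∃ α β : ℝ, 0 ≤ α ∧ α < β ∧ β ≤ 1 ∧ r =
    |(((Finset.range N).filter (fun n => α ≤ Int.fract (u n) ∧ Int.fract (u n) < β)).card : ℝ) / N - (β - α)|}.Nonempty :=
    ⟨_, 0, 1, le_refl _, zero_lt_one, le_refl _, rfl⟩
  obtain ⟨_, ⟨α, β, hα, hαβ, hβ, rfl⟩, hlt⟩ := exists_lt_of_lt_csSup hne hr
  rw [count67 hα hαβ hβ] at hlt
  have hmem : ∀ x : ℝ, 0 ≤ x → x ≤ 1 → ⌈x / η⌉₊ < K ∧ ⌊x / η⌋₊ < K := by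
    intro x hx0 hx1
    have e1 : ⌈x / η⌉₊ ≤ ⌈1 / η⌉₊ := Nat.ceil_mono (div_le_div_of_nonneg_right hx1 h0.le)
    have e2 : ⌊x / η⌋₊ ≤ ⌈x / η⌉₊ := Nat.floor_le_ceil _
    omega
  have hlo : ∀ x : ℝ, 0 ≤ x → (⌊x / η⌋₊ : ℝ) * η ≤ x ∧ x ≤ (⌊x / η⌋₊ : ℝ) * η + η := by
    intro x hx0
    have e1 := Nat.floor_le (div_nonneg hx0 h0.le)
    have e2 := (Nat.lt_floor_add_one (x / η)).le
    rw [le_div_iff₀ h0] at e1
    rw [div_le_iff₀ h0] at e2
    exact ⟨e1, by linarith⟩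
  have hup : ∀ x : ℝ, 0 ≤ x → x ≤ (⌈x / η⌉₊ : ℝ) * η ∧ (⌈x / η⌉₊ : ℝ) * η ≤ x + η := by
    intro x hx0
    have e1 := Nat.le_ceil (x / η)
    have e2 := (Nat.ceil_lt_add_one (div_nonneg hx0 h0.le)).le
    rw [div_le_iff₀ h0] at e1
    refine ⟨e1, ?_⟩
    have e3 := mul_le_mul_of_nonneg_right e2 h0.le
    rw [add_mul, one_mul, div_mul_cancel₀ _ h0.ne'] at e3
    exact e3
  have hβ0 : 0 ≤ β := hα.trans hαβ.le
  have hα1 : α ≤ 1 := hαβ.le.trans hβ
  rcases lt_abs.mp hlt with hlt | hlt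
  · -- too many points
    obtain ⟨ha, hb⟩ : (∃ a : ℕ, a = ⌊α / η⌋₊) ∧ ∃ b : ℕ, b = ⌈β / η⌉₊ := ⟨⟨_, rfl⟩, ⟨_, rfl⟩⟩
    obtain ⟨a, ha⟩ := ha
    obtain ⟨b, hb⟩ := hb
    have ga := hlo α hα
    have gb := hup β hβ0
    rw [← ha] at ga
    rw [← hb] at gb
    refine ⟨((b : ℝ) * η - a * η + η, -((b : ℝ) * η)), Finset.mem_union_left _ (Finset.mem_image.mpr ⟨(a, b), ?_, rfl⟩),
      Or.inl ?_⟩
    · rw [Finset.mem_product, Finset.mem_range, Finset.mem_range]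
      exact ⟨ha ▸ (hmem α hα hα1).2, hb ▸ (hmem β hβ0 hβ).1⟩
    · have hsum : ∑ n ∈ Finset.range N, ((⌊u n - α⌋ : ℝ) - ⌊u n - β⌋) ≤
          ∑ n ∈ Finset.range N, (tr η ((b : ℝ) * η - a * η + η) (-((b : ℝ) * η)) (u n) + ((b : ℝ) * η - a * η + η)) := by
        refine Finset.sum_le_sum fun n _ => ?_
        unfold tr
        have e1 : (⌊u n - α⌋ : ℝ) ≤ ⌊u n - a * η⌋ := by
          exact_mod_cast Int.floor_le_floor (by linarith : u n - α ≤ u n - a * η)
        have e2 : (⌊u n - b * η⌋ : ℝ) ≤ ⌊u n - β⌋ := by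
          exact_mod_cast Int.floor_le_floor (by linarith : u n - b * η ≤ u n - β)
        have e3 : (⌊u n - a * η⌋ : ℝ) ≤ tz η (u n + -((b : ℝ) * η) + ((b : ℝ) * η - a * η + η)) - 1 := by
          have e := le_tz67 h0 (u n - a * η + η - 1)
          have e' := tz_add67 η (u n - a * η + η - 1)
          have s1 : u n - a * η + η - 1 + 1 - η = u n - a * η := by ring
          have s2 : u n - a * η + η - 1 + 1 = u n + -((b : ℝ) * η) + ((b : ℝ) * η - a * η + η) := by ring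
          rw [s1] at e
          rw [s2] at e'
          linarith
        have e4 : tz η (u n + -((b : ℝ) * η)) - 1 ≤ ⌊u n - b * η⌋ := by
          have e := tz_le67 η (u n + -((b : ℝ) * η))
          rw [← sub_eq_add_neg] at e ⊢
          linarith
        linarith
      rw [Finset.sum_add_distrib, Finset.sum_const, Finset.card_range, nsmul_eq_mul] at hsum
      rw [lt_sub_iff_add_lt, lt_div_iff₀ hNpos] at hlt
      nlinarith [hsum, hlt, ga.1, ga.2, gb.1, gb.2, hNpos]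
  · -- too few points
    obtain ⟨ha, hb⟩ : (∃ a : ℕ, a = ⌈α / η⌉₊) ∧ ∃ b : ℕ, b = ⌊β / η⌋₊ := ⟨⟨_, rfl⟩, ⟨_, rfl⟩⟩
    obtain ⟨a, ha⟩ := ha
    obtain ⟨b, hb⟩ := hb
    have ga := hup α hα
    have gb := hlo β hβ0
    rw [← ha] at ga
    rw [← hb] at gb
    refine ⟨((b : ℝ) * η - a * η - η, -((b : ℝ) * η) + η), Finset.mem_union_right _ (Finset.mem_image.mpr ⟨(a, b), ?_, rfl⟩),
      Or.inr ?_⟩
    · rw [Finset.mem_product, Finset.mem_range, Finset.mem_range]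
      exact ⟨ha ▸ (hmem α hα hα1).1, hb ▸ (hmem β hβ0 hβ).2⟩
    · have hsum : ∑ n ∈ Finset.range N, (tr η ((b : ℝ) * η - a * η - η) (-((b : ℝ) * η) + η) (u n) +
          ((b : ℝ) * η - a * η - η)) ≤ ∑ n ∈ Finset.range N, ((⌊u n - α⌋ : ℝ) - ⌊u n - β⌋) := by
        refine Finset.sum_le_sum fun n _ => ?_
        unfold tr
        have e1 : (⌊u n - a * η⌋ : ℝ) ≤ ⌊u n - α⌋ := by
          exact_mod_cast Int.floor_le_floor (by linarith : u n - a * η ≤ u n - α)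
        have e2 : (⌊u n - β⌋ : ℝ) ≤ ⌊u n - b * η⌋ := by
          exact_mod_cast Int.floor_le_floor (by linarith : u n - β ≤ u n - b * η)
        have e3 : tz η (u n + (-((b : ℝ) * η) + η) + ((b : ℝ) * η - a * η - η)) - 1 ≤ ⌊u n - a * η⌋ := by
          have e := tz_le67 η (u n - a * η)
          have s1 : u n + (-((b : ℝ) * η) + η) + ((b : ℝ) * η - a * η - η) = u n - a * η := by ring
          rw [s1]
          linarith
        have e4 : (⌊u n - b * η⌋ : ℝ) ≤ tz η (u n + (-((b : ℝ) * η) + η)) - 1 := by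
          have e := le_tz67 h0 (u n - b * η + η - 1)
          have e' := tz_add67 η (u n - b * η + η - 1)
          have s1 : u n - b * η + η - 1 + 1 - η = u n - b * η := by ring
          have s2 : u n - b * η + η - 1 + 1 = u n + (-((b : ℝ) * η) + η) := by ring
          rw [s1] at e
          rw [s2] at e'
          linarith
        linarith
      rw [Finset.sum_add_distrib, Finset.sum_const, Finset.card_range, nsmul_eq_mul] at hsum
      rw [Finset.sum_neg_distrib]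
      have hlt' : (∑ n ∈ Finset.range N, ((⌊u n - α⌋ : ℝ) - ⌊u n - β⌋)) / N < (β - α) - r := by linarith
      rw [div_lt_iff₀ hNpos] at hlt'
      nlinarith [hsum, hlt', ga.1, ga.2, gb.1, gb.2, hNpos]

theorem disc_ge {η : ℝ} (h0 : 0 < η) (h1 : η ≤ 1 / 4) (u : ℕ → ℝ) (N : ℕ) (hN : 1 ≤ N) :
    (∑ n ∈ Finset.range N, tr η (1 / 2) (-(1 / 2)) (u n)) / N - η ≤ disc u N := by
  classical
  have hNpos : (0 : ℝ) < N := by exact_mod_cast hN
  have hbdd : BddAbove {r : ℝ | ∃ α β : ℝ, 0 ≤ α ∧ α < β ∧ β ≤ 1 ∧ r =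
    |(((Finset.range N).filter (fun n => α ≤ Int.fract (u n) ∧ Int.fract (u n) < β)).card : ℝ) / N - (β - α)|} := by
    refine ⟨1, ?_⟩
    rintro _ ⟨α, β, hα, hαβ, hβ, rfl⟩
    have e1 : (((Finset.range N).filter (fun n => α ≤ Int.fract (u n) ∧ Int.fract (u n) < β)).card : ℝ) ≤ N := by
      have := Finset.card_filter_le (Finset.range N) (fun n => α ≤ Int.fract (u n) ∧ Int.fract (u n) < β)
      rw [Finset.card_range] at this
      exact_mod_cast this
    have e2 : (((Finset.range N).filter (fun n => α ≤ Int.fract (u n) ∧ Int.fract (u n) < β)).card : ℝ) / N ≤ 1 :=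
      (div_le_one hNpos).mpr e1
    have e3 : 0 ≤ (((Finset.range N).filter (fun n => α ≤ Int.fract (u n) ∧ Int.fract (u n) < β)).card : ℝ) / N :=
      div_nonneg (Nat.cast_nonneg _) hNpos.le
    rw [abs_le]
    constructor <;> linarith
  have hle := le_csSup hbdd ⟨0, 1 / 2 + η, le_refl _, by linarith, by linarith, rfl⟩
  have hsum : ∑ n ∈ Finset.range N, (tr η (1 / 2) (-(1 / 2)) (u n) + 1 / 2) ≤
      ∑ n ∈ Finset.range N, ((⌊u n - 0⌋ : ℝ) - ⌊u n - (1 / 2 + η)⌋) := by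
    refine Finset.sum_le_sum fun n _ => ?_
    unfold tr
    have e1 : tz η (u n + -(1 / 2) + 1 / 2) ≤ (⌊u n - 0⌋ : ℝ) + 1 := by
      have s1 : u n + -(1 / 2) + 1 / 2 = u n - 0 := by ring
      rw [s1]
      exact tz_le67 η _
    have e2 : (⌊u n - (1 / 2 + η)⌋ : ℝ) + 1 ≤ tz η (u n + -(1 / 2)) := by
      have e := le_tz67 h0 (u n + -(1 / 2))
      have s1 : u n + -(1 / 2) + 1 - η = u n - (1 / 2 + η) + 1 := by ring
      rw [s1, Int.floor_add_one] at e
      push_cast at e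
      exact e
    linarith
  rw [Finset.sum_add_distrib, Finset.sum_const, Finset.card_range, nsmul_eq_mul,
    ← count67 le_rfl (by linarith) (by linarith)] at hsum
  have hdisc : |(((Finset.range N).filter (fun n => 0 ≤ Int.fract (u n) ∧ Int.fract (u n) < 1 / 2 + η)).card : ℝ) / N -
      (1 / 2 + η - 0)| ≤ disc u N := hle
  have h3 := (le_abs_self _).trans hdisc
  have h4 : (∑ n ∈ Finset.range N, tr η (1 / 2) (-(1 / 2)) (u n)) / N ≤
      (((Finset.range N).filter (fun n => 0 ≤ Int.fract (u n) ∧ Int.fract (u n) < 1 / 2 + η)).card : ℝ) / N - 1 / 2 := by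
    have h5 := div_le_div_of_nonneg_right hsum hNpos.le
    rw [add_div, mul_div_cancel_left₀ (1 / 2 : ℝ) hNpos.ne'] at h5
    linarith
  linarith

end Pool.Agent.Helper78.KD
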