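import Pool.Agent.Helper78.KD.FDefs
import Pool.Agent.Helper44.KD.Three

/-!
# KD block F4: the variance of some arc is at least one quarter
-/

set_option autoImplicit false

namespace Pool.Agent.Helper67.KD

open MeasureTheory Set Filter Topology
open Pool.Agent.Helper78.KD (chi rho sig SigSq rho_of_eq rho_of_irr rho_zero)
open Pool.Agent.Helper44.KD (chi_meas chi_abs chi_add_one chi_corr)
open H44TX

lemma floor_sub67 {a : ℝ} (h0 : 0 ≤ a) (h1 : a ≤ 1) (t : ℝ) :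
    (⌊t - a⌋ : ℝ) = ⌊t⌋ - 1 + if a ≤ Int.fract t then 1 else 0 := by
  have ht : (⌊t⌋ : ℝ) + Int.fract t = t := Int.floor_add_fract t
  have hf0 := Int.fract_nonneg t
  have hf1 := Int.fract_lt_one t
  split_ifs with h
  · have : ⌊t - a⌋ = ⌊t⌋ := by
      rw [Int.floor_eq_iff]
      exact ⟨by linarith, by linarith⟩
    rw [this]
    ring
  · push Not at h
    have : ⌊t - a⌋ = ⌊t⌋ - 1 := by
      rw [Int.floor_eq_iff]
      push_cast
      exact ⟨by linarith, by linarith⟩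
    rw [this]
    push_cast
    ring

lemma chi_eq67 {α β : ℝ} (h0 : 0 ≤ α) (h1 : α ≤ β) (h2 : β ≤ 1) (t : ℝ) :
    chi α β t = (⌊t - α⌋ : ℝ) - ⌊t - β⌋ - (β - α) := by
  unfold chi
  rw [floor_sub67 h0 (h1.trans h2), floor_sub67 (h0.trans h1) h2]
  by_cases e1 : α ≤ Int.fract t
  · by_cases e2 : Int.fract t < β
    · rw [if_pos ⟨e1, e2⟩, if_pos e1, if_neg (not_le.mpr e2)]
      ring
    · rw [if_neg (fun h => e2 h.2), if_pos e1, if_pos (not_lt.mp e2)]
      ring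
  · have e2 : Int.fract t < β := (not_le.mp e1).trans_le h1
    rw [if_neg (fun h => e1 h.1), if_neg e1, if_neg (not_le.mpr e2)]
    ring

lemma half67 {y : ℝ} (h0 : 0 ≤ y) (h1 : y ≤ 1 / 2) : chi y (y + 1 / 2) = fun t => Helper44.KD.chi (t - y) := by
  funext t
  rw [chi_eq67 h0 (by linarith) (by linarith)]
  unfold Pool.Agent.Helper44.KD.chi
  have e : t - (y + 1 / 2) = t - y - 1 / 2 := by ring
  rw [e]
  ring

lemma shift67 (t : ℝ) : Helper44.KD.chi (t + 1 / 2) = - Helper44.KD.chi t := by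
  unfold Pool.Agent.Helper44.KD.chi
  have e1 : t + 1 / 2 - 1 / 2 = t := by ring
  have e2 : ⌊t + 1 / 2⌋ = ⌊t - 1 / 2⌋ + 1 := by
    rw [← Int.floor_add_one]
    congr 1
    ring
  rw [e1, e2]
  push_cast
  ring

lemma per67 : Function.Periodic Helper44.KD.chi 1 := chi_add_one

lemma ii67 {f : ℝ → ℝ} (hf : Measurable f) {C : ℝ} (hb : ∀ x, |f x| ≤ C) (a b : ℝ) :
    IntervalIntegrable f volume a b := intInt_of_bdd hf hb a b

lemma mean67 (a : ℝ) : ∫ t in a..(a + 1), Helper44.KD.chi t = 0 := by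
  rw [per67.intervalIntegral_add_eq a 0, zero_add]
  have hI : ∀ a b : ℝ, IntervalIntegrable Helper44.KD.chi volume a b := fun a b => ii67 chi_meas (C := 1 / 2) (fun t => (chi_abs t).le) a b
  rw [← intervalIntegral.integral_add_adjacent_intervals (hI 0 (1 / 2)) (hI (1 / 2) 1)]
  have h1 : ∫ t in (1 / 2 : ℝ)..1, Helper44.KD.chi t = ∫ t in (0 : ℝ)..(1 / 2), Helper44.KD.chi (t + 1 / 2) := by
    rw [intervalIntegral.integral_comp_add_right (fun t => Helper44.KD.chi t)]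
    norm_num
  rw [h1]
  simp only [shift67]
  rw [intervalIntegral.integral_neg]
  ring

/-! ### arcs are of bounded variation -/

lemma int_floor67 {α : ℝ} (h0 : 0 ≤ α) (h1 : α ≤ 1) : ∫ t in (0 : ℝ)..1, (⌊t - α⌋ : ℝ) = -α := by
  have hm : Monotone fun t : ℝ => (⌊t - α⌋ : ℝ) := by
    intro s t hst
    show (⌊s - α⌋ : ℝ) ≤ ⌊t - α⌋
    exact_mod_cast Int.floor_le_floor (by linarith : s - α ≤ t - α)
  have hI : ∀ a b : ℝ, IntervalIntegrable (fun t : ℝ => (⌊t - α⌋ : ℝ)) volume a b := fun a b => hm.intervalIntegrable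
  rw [← intervalIntegral.integral_add_adjacent_intervals (hI 0 α) (hI α 1)]
  have e1 : ∫ t in (0 : ℝ)..α, (⌊t - α⌋ : ℝ) = ∫ _t in (0 : ℝ)..α, (-1 : ℝ) := by
    refine intervalIntegral.integral_congr_Ioo_of_le h0 ?_
    intro t ht
    have : ⌊t - α⌋ = -1 := by
      rw [Int.floor_eq_iff]
      push_cast
      exact ⟨by linarith [ht.1], by linarith [ht.2]⟩
    show (⌊t - α⌋ : ℝ) = -1
    rw [this]
    norm_num
  have e2 : ∫ t in α..1, (⌊t - α⌋ : ℝ) = ∫ _t in α..1, (0 : ℝ) := by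
    refine intervalIntegral.integral_congr_Ioo_of_le h1 ?_
    intro t ht
    have : ⌊t - α⌋ = 0 := by
      rw [Int.floor_eq_iff]
      push_cast
      exact ⟨by linarith [ht.1], by linarith [ht.2]⟩
    show (⌊t - α⌋ : ℝ) = 0
    rw [this]
    norm_num
  rw [e1, e2]
  simp

lemma bv67 {α β : ℝ} (h0 : 0 ≤ α) (h1 : α < β) (h2 : β ≤ 1) : IsBV (chi α β) := by
  have hl : ∀ a : ℝ, IsLift fun t : ℝ => (⌊t - a⌋ : ℝ) := by
    intro a
    refine ⟨?_, ?_⟩
    · intro s t hst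
      show (⌊s - a⌋ : ℝ) ≤ ⌊t - a⌋
      exact_mod_cast Int.floor_le_floor (by linarith : s - a ≤ t - a)
    · intro t
      have : ⌊t + 1 - a⌋ = ⌊t - a⌋ + 1 := by
        rw [← Int.floor_add_one]
        congr 1
        ring
      show (⌊t + 1 - a⌋ : ℝ) = ⌊t - a⌋ + 1
      rw [this]
      push_cast
      rfl
  refine ⟨⟨_, _, hl α, hl β, β - α, chi_eq67 h0 h1.le h2⟩, ?_, ?_⟩
  · intro t
    unfold chi
    split_ifs <;> rw [abs_le] <;> constructor <;> linarith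
  · have e : chi α β = fun t => ((⌊t - α⌋ : ℝ) - ⌊t - β⌋) - (β - α) := funext (chi_eq67 h0 h1.le h2)
    have i1 : ∀ a : ℝ, IntervalIntegrable (fun t : ℝ => (⌊t - a⌋ : ℝ)) volume 0 1 := fun a =>
      (hl a).mono.intervalIntegrable
    rw [e, intervalIntegral.integral_sub ((i1 α).sub (i1 β)) intervalIntegrable_const,
      intervalIntegral.integral_sub (i1 α) (i1 β), int_floor67 h0 (h1.le.trans h2), int_floor67 (h0.trans h1.le) h2]
    rw [intervalIntegral.integral_const, sub_zero, one_smul]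
    ring

lemma rho_bd67 {θ : ℝ} (hθ : 1 < θ) {φ : ℝ → ℝ} (h : IsBV φ) (d : ℕ) : |rho θ φ d| ≤ 5 * θ⁻¹ ^ d := by
  have hθ0 : 0 < θ := by linarith
  by_cases hr : ∃ r : ℚ, (r : ℝ) = θ ^ d
  · obtain ⟨r, hr⟩ := hr
    have hrpos : 0 < r := by
      have : (0 : ℝ) < r := by rw [hr]; positivity
      exact_mod_cast this
    have hnum : 0 < r.num := Rat.num_pos.mpr hrpos
    have hnum' : (0 : ℝ) < r.num := by exact_mod_cast hnum
    have hden : (0 : ℝ) < r.den := by exact_mod_cast r.den_pos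
    have hden1 : (1 : ℝ) ≤ r.den := by exact_mod_cast r.den_pos
    have hq : (r.den : ℝ) / r.num = θ⁻¹ ^ d := by
      rw [inv_pow, ← hr, Rat.cast_def, inv_div]
    have h1 := lag_bound h 0 (r.den : ℝ) 0 (r.num : ℝ) 1 hden hnum' one_pos
    rw [rho_of_eq φ hr]
    have h2 : ∫ t in (0 : ℝ)..1, φ ((r.num : ℝ) * t) * φ ((r.den : ℝ) * t) =
        (∫ y in (0 : ℝ)..1, φ (0 + (r.den : ℝ) * y) * φ (0 + (r.num : ℝ) * y)) / 1 := by
      rw [div_one]
      refine intervalIntegral.integral_congr fun t _ => ?_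
      simp only [zero_add]
      ring
    rw [h2]
    refine h1.trans ?_
    rw [← hq, mul_one]
    have h3 : 3 / (r.num : ℝ) ≤ 3 * ((r.den : ℝ) / r.num) := by
      rw [← mul_div_assoc]
      exact div_le_div_of_nonneg_right (by linarith) hnum'.le
    linarith
  · have : rho θ φ d = 0 := by
      unfold rho
      rw [dif_neg hr]
    rw [this, abs_zero]
    positivity

lemma summ67 {θ : ℝ} (hθ : 1 < θ) (m : ℕ) : Summable fun d : ℕ => 5 * θ⁻¹ ^ (d + m) := by
  have h1 : Summable fun d : ℕ => θ⁻¹ ^ d :=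
    summable_geometric_of_lt_one (by positivity) (inv_lt_one_of_one_lt₀ hθ)
  exact ((summable_nat_add_iff m).mpr h1).mul_left 5

lemma summr67 {θ : ℝ} (hθ : 1 < θ) {φ : ℝ → ℝ} (h : IsBV φ) (m : ℕ) : Summable fun d : ℕ => rho θ φ (d + m) :=
  Summable.of_norm_bounded (summ67 hθ m) fun d => by
    rw [Real.norm_eq_abs]
    exact rho_bd67 hθ h _

/-- the truncated variance -/
lemma trunc67 {θ : ℝ} (hθ : 1 < θ) {φ : ℝ → ℝ} (h : IsBV φ) (D : ℕ) :
    rho θ φ 0 + 2 * ∑ d ∈ Finset.range D, rho θ φ (d + 1) ≤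
      sig θ φ + 2 * ∑' d : ℕ, 5 * θ⁻¹ ^ (d + (D + 1)) := by
  unfold sig
  have h1 := (summr67 hθ h 1).sum_add_tsum_nat_add D
  have h2 : |∑' d : ℕ, rho θ φ (d + D + 1)| ≤ ∑' d : ℕ, 5 * θ⁻¹ ^ (d + (D + 1)) := by
    rw [← Real.norm_eq_abs]
    refine tsum_of_norm_bounded (summ67 hθ (D + 1)).hasSum fun d => ?_
    rw [Real.norm_eq_abs]
    exact rho_bd67 hθ h _
  have h3 := (abs_le.mp h2).1
  linarith

lemma sig_bd67 {θ : ℝ} (hθ : 1 < θ) {φ : ℝ → ℝ} (h : IsBV φ) : sig θ φ ≤ 5 + 2 * ∑' d : ℕ, 5 * θ⁻¹ ^ (d + 1) := by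
  unfold sig
  have h1 := rho_bd67 hθ h 0
  have h2 : |∑' d : ℕ, rho θ φ (d + 1)| ≤ ∑' d : ℕ, 5 * θ⁻¹ ^ (d + 1) := by
    rw [← Real.norm_eq_abs]
    refine tsum_of_norm_bounded (summ67 hθ 1).hasSum fun d => ?_
    rw [Real.norm_eq_abs]
    exact rho_bd67 hθ h _
  rw [pow_zero, mul_one] at h1
  linarith [(abs_le.mp h1).2, (abs_le.mp h2).2]

lemma sig_le67 {θ : ℝ} (hθ : 1 < θ) {α β : ℝ} (h0 : 0 ≤ α) (h1 : α < β) (h2 : β ≤ 1) :
    sig θ (chi α β) ≤ SigSq θ := by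
  refine le_csSup ?_ ⟨α, β, h0, h1, h2, rfl⟩
  refine ⟨5 + 2 * ∑' d : ℕ, 5 * θ⁻¹ ^ (d + 1), ?_⟩
  rintro _ ⟨a, b, ha, hab, hb, rfl⟩
  exact sig_bd67 hθ (bv67 ha hab hb)

/-! ### the average over the rotations -/

lemma joint67 (p q : ℤ) : Measurable fun z : ℝ × ℝ => Helper44.KD.chi ((p : ℝ) * z.2 - z.1) * Helper44.KD.chi ((q : ℝ) * z.2 - z.1) := by
  have h : ∀ p : ℤ, Measurable fun z : ℝ × ℝ => Helper44.KD.chi ((p : ℝ) * z.2 - z.1) := fun p =>
    chi_meas.comp ((measurable_const.mul measurable_snd).sub measurable_fst)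
  exact (h p).mul (h q)

lemma bd67 (s t : ℝ) : |Helper44.KD.chi s * Helper44.KD.chi t| ≤ 1 := by
  rw [abs_mul, chi_abs, chi_abs]
  norm_num

lemma bdd_on67 {f : ℝ × ℝ → ℝ} (hf : Measurable f) (hb : ∀ z, |f z| ≤ 1) (a b c d : ℝ) :
    IntegrableOn f (uIoc a b ×ˢ uIoc c d) := by
  refine Measure.integrableOn_of_bounded (M := 1) ?_ hf.aestronglyMeasurable ?_
  · rw [Measure.volume_eq_prod, Measure.prod_prod]
    exact ENNReal.mul_ne_top (by simp [uIoc]) (by simp [uIoc])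
  · exact Eventually.of_forall fun z => by rw [Real.norm_eq_abs]; exact hb z

lemma avg67 {p q : ℤ} (hpq : p ≠ q) :
    ∫ y in (0 : ℝ)..1, ∫ t in (0 : ℝ)..1, Helper44.KD.chi ((p : ℝ) * t - y) * Helper44.KD.chi ((q : ℝ) * t - y) = 0 := by
  rw [MeasureTheory.intervalIntegral_intervalIntegral_swap
    (F := fun y t => Helper44.KD.chi ((p : ℝ) * t - y) * Helper44.KD.chi ((q : ℝ) * t - y)) (bdd_on67 (joint67 p q) (fun z => bd67 _ _) 0 1 0 1)]
  obtain ⟨m, hm⟩ : ∃ m : ℤ, m = p - q := ⟨_, rfl⟩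
  have hm0 : (m : ℝ) ≠ 0 := by
    rw [hm]
    exact_mod_cast sub_ne_zero.mpr hpq
  have h1 : ∀ t : ℝ, ∫ y in (0 : ℝ)..1, Helper44.KD.chi ((p : ℝ) * t - y) * Helper44.KD.chi ((q : ℝ) * t - y) =
      ∫ u in (0 : ℝ)..1, Helper44.KD.chi ((m : ℝ) * t + u) * Helper44.KD.chi u := by
    intro t
    let G : ℝ → ℝ := fun u => Helper44.KD.chi ((m : ℝ) * t + u) * Helper44.KD.chi u
    have hG : Function.Periodic G 1 := by
      intro u
      simp only [G]
      rw [← add_assoc, chi_add_one, chi_add_one]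
    have e1 : ∫ y in (0 : ℝ)..1, Helper44.KD.chi ((p : ℝ) * t - y) * Helper44.KD.chi ((q : ℝ) * t - y) =
        ∫ y in (0 : ℝ)..1, G ((q : ℝ) * t - y) := by
      refine intervalIntegral.integral_congr fun y _ => ?_
      simp only [G]
      rw [hm]
      push_cast
      congr 2
      ring
    rw [e1, intervalIntegral.integral_comp_sub_left (fun u => G u)]
    have e2 := hG.intervalIntegral_add_eq ((q : ℝ) * t - 1) 0
    rw [sub_add_cancel, zero_add] at e2
    rw [sub_zero]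
    exact e2
  simp only [h1]
  have hj : Measurable fun z : ℝ × ℝ => Helper44.KD.chi ((m : ℝ) * z.1 + z.2) * Helper44.KD.chi z.2 := by
    exact (chi_meas.comp ((measurable_const.mul measurable_fst).add measurable_snd)).mul (chi_meas.comp measurable_snd)
  rw [MeasureTheory.intervalIntegral_intervalIntegral_swap
    (F := fun t u => Helper44.KD.chi ((m : ℝ) * t + u) * Helper44.KD.chi u) (bdd_on67 hj (fun z => bd67 _ _) 0 1 0 1)]
  have h2 : ∀ u : ℝ, ∫ t in (0 : ℝ)..1, Helper44.KD.chi ((m : ℝ) * t + u) * Helper44.KD.chi u = 0 := by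
    intro u
    rw [intervalIntegral.integral_mul_const, intervalIntegral.integral_comp_mul_add (fun t => Helper44.KD.chi t) hm0]
    have hI : ∀ a b : ℝ, IntervalIntegrable Helper44.KD.chi volume a b := fun a b =>
      ii67 chi_meas (C := 1 / 2) (fun t => (chi_abs t).le) a b
    have e3 := per67.intervalIntegral_add_zsmul_eq m u hI
    rw [mean67, smul_zero] at e3
    have e4 : (m : ℝ) * 1 + u = u + m • (1 : ℝ) := by
      rw [zsmul_eq_mul]
      ring
    rw [mul_zero, zero_add, e4, e3, smul_zero, zero_mul]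
  simp only [h2]
  simp

lemma meas67 (p q : ℤ) :
    Measurable fun y : ℝ => ∫ t in (0 : ℝ)..1, Helper44.KD.chi ((p : ℝ) * t - y) * Helper44.KD.chi ((q : ℝ) * t - y) := by
  have h1 : (fun y : ℝ => ∫ t in (0 : ℝ)..1, Helper44.KD.chi ((p : ℝ) * t - y) * Helper44.KD.chi ((q : ℝ) * t - y)) =
      fun y : ℝ => ∫ t in Ioc (0 : ℝ) 1, Helper44.KD.chi ((p : ℝ) * t - y) * Helper44.KD.chi ((q : ℝ) * t - y) := by
    funext y
    exact intervalIntegral.integral_of_le zero_le_one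
  rw [h1]
  exact ((joint67 p q).stronglyMeasurable.integral_prod_right (ν := volume.restrict (Ioc (0 : ℝ) 1))).measurable

lemma abs_R67 (p q : ℤ) (y : ℝ) : |∫ t in (0 : ℝ)..1, Helper44.KD.chi ((p : ℝ) * t - y) * Helper44.KD.chi ((q : ℝ) * t - y)| ≤ 1 := by
  have := abs_int_le (f := fun t => Helper44.KD.chi ((p : ℝ) * t - y) * Helper44.KD.chi ((q : ℝ) * t - y)) (C := 1) (fun t => bd67 _ _)
    (a := 0) (b := 1) zero_le_one
  simpa using this

lemma half_avg67 {p q : ℤ} (hpq : p ≠ q) :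
    ∫ y in (0 : ℝ)..(1 / 2), ∫ t in (0 : ℝ)..1, Helper44.KD.chi ((p : ℝ) * t - y) * Helper44.KD.chi ((q : ℝ) * t - y) = 0 := by
  obtain ⟨R, hR⟩ : ∃ R : ℝ → ℝ, R = fun y => ∫ t in (0 : ℝ)..1, Helper44.KD.chi ((p : ℝ) * t - y) * Helper44.KD.chi ((q : ℝ) * t - y) := ⟨_, rfl⟩
  have hI : ∀ a b : ℝ, IntervalIntegrable R volume a b := fun a b => by
    rw [hR]
    exact ii67 (meas67 p q) (C := 1) (abs_R67 p q) a b
  have h0 : ∫ y in (0 : ℝ)..1, R y = 0 := by
    rw [hR]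
    exact avg67 hpq
  have hs : ∀ y, R (y + 1 / 2) = R y := by
    intro y
    rw [hR]
    refine intervalIntegral.integral_congr fun t _ => ?_
    have e : ∀ s : ℝ, Helper44.KD.chi (s - (y + 1 / 2)) = - Helper44.KD.chi (s - y) := by
      intro s
      have := shift67 (s - (y + 1 / 2))
      have e1 : s - (y + 1 / 2) + 1 / 2 = s - y := by ring
      rw [e1] at this
      linarith
    show Helper44.KD.chi ((p : ℝ) * t - (y + 1 / 2)) * Helper44.KD.chi ((q : ℝ) * t - (y + 1 / 2)) = Helper44.KD.chi ((p : ℝ) * t - y) * Helper44.KD.chi ((q : ℝ) * t - y)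
    rw [e, e]
    ring
  rw [← intervalIntegral.integral_add_adjacent_intervals (hI 0 (1 / 2)) (hI (1 / 2) 1)] at h0
  have h1 : ∫ y in (1 / 2 : ℝ)..1, R y = ∫ y in (0 : ℝ)..(1 / 2), R y := by
    have := intervalIntegral.integral_comp_add_right (a := 0) (b := 1 / 2) (fun y => R y) (1 / 2)
    simp only [hs] at this
    rw [this]
    norm_num
  rw [h1] at h0
  have h2 : ∫ y in (0 : ℝ)..(1 / 2), R y = 0 := by linarith
  rw [hR] at h2
  exact h2

/-- the covariances of the rotated half circles -/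
lemma rho_int67 {θ : ℝ} (hθ : 1 < θ) (d : ℕ) :
    ∃ R : ℝ → ℝ, (∀ y, 0 ≤ y → y ≤ 1 / 2 → rho θ (chi y (y + 1 / 2)) (d + 1) = R y) ∧
      (∀ a b : ℝ, IntervalIntegrable R volume a b) ∧ ∫ y in (0 : ℝ)..(1 / 2), R y = 0 := by
  by_cases hr : ∃ r : ℚ, (r : ℝ) = θ ^ (d + 1)
  · obtain ⟨r, hr⟩ := hr
    refine ⟨fun y => ∫ t in (0 : ℝ)..1, Helper44.KD.chi ((r.num : ℝ) * t - y) * Helper44.KD.chi (((r.den : ℤ) : ℝ) * t - y), ?_, ?_, ?_⟩
    · intro y h0 h1
      rw [rho_of_eq _ hr, half67 h0 h1]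
      simp only [Int.cast_natCast]
    · exact fun a b => ii67 (meas67 _ _) (C := 1) (abs_R67 _ _) a b
    · apply half_avg67
      intro h
      have h1 : (r : ℝ) = 1 := by
        rw [Rat.cast_def]
        have h2 : (r.num : ℝ) = (r.den : ℝ) := by exact_mod_cast h
        rw [h2]
        exact div_self (by exact_mod_cast r.den_pos.ne')
      rw [hr] at h1
      exact (one_lt_pow₀ hθ (Nat.succ_ne_zero d)).ne' h1
  · refine ⟨fun _ => 0, ?_, ?_, ?_⟩
    · intro y _ _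
      unfold rho
      rw [dif_neg hr]
    · exact fun a b => intervalIntegrable_const
    · simp

lemma rho0_67 {y : ℝ} (θ : ℝ) (h0 : 0 ≤ y) (h1 : y ≤ 1 / 2) : rho θ (chi y (y + 1 / 2)) 0 = 1 / 4 := by
  rw [rho_zero, half67 h0 h1]
  have e : ∀ t : ℝ, Helper44.KD.chi (t - y) ^ 2 = 1 / 4 := by
    intro t
    rw [← sq_abs, chi_abs]
    norm_num
  simp only [e]
  simp

theorem SigSq_ge {θ : ℝ} (hθ : 1 < θ) : 1 / 4 ≤ SigSq θ := by
  have key : ∀ D : ℕ, 1 / 4 ≤ SigSq θ + 2 * ∑' d : ℕ, 5 * θ⁻¹ ^ (d + (D + 1)) := by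
    intro D
    obtain ⟨c, hc⟩ : ∃ c, c = SigSq θ + 2 * ∑' d : ℕ, 5 * θ⁻¹ ^ (d + (D + 1)) := ⟨_, rfl⟩
    choose R hR1 hR2 hR3 using fun d => rho_int67 hθ d
    have h1 : ∀ y ∈ Icc (0 : ℝ) (1 / 2), 1 / 4 + 2 * ∑ d ∈ Finset.range D, R d y ≤ c := by
      intro y hy
      have h2 := trunc67 hθ (bv67 hy.1 (by linarith : y < y + 1 / 2) (by linarith [hy.2])) D
      rw [rho0_67 θ hy.1 hy.2, Finset.sum_congr rfl fun d _ => hR1 d y hy.1 hy.2] at h2
      have h3 := sig_le67 hθ hy.1 (by linarith : y < y + 1 / 2) (by linarith [hy.2])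
      rw [hc]
      linarith
    have hS : IntervalIntegrable (fun y => ∑ d ∈ Finset.range D, R d y) volume 0 (1 / 2) := by
      have h := IntervalIntegrable.sum (μ := volume) (a := (0 : ℝ)) (b := 1 / 2) (Finset.range D) fun d _ => hR2 d 0 (1 / 2)
      have e : (∑ d ∈ Finset.range D, R d) = fun y => ∑ d ∈ Finset.range D, R d y := by
        funext y
        rw [Finset.sum_apply]
      rw [e] at h
      exact h
    have hI1 : IntervalIntegrable (fun y => 1 / 4 + 2 * ∑ d ∈ Finset.range D, R d y) volume 0 (1 / 2) :=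
      intervalIntegrable_const.add (hS.const_mul 2)
    have h4 := intervalIntegral.integral_mono_on (by norm_num : (0 : ℝ) ≤ 1 / 2) hI1 intervalIntegrable_const h1
    rw [intervalIntegral.integral_add intervalIntegrable_const (hS.const_mul 2),
      intervalIntegral.integral_const_mul, intervalIntegral.integral_finsetSum fun d _ => hR2 d _ _,
      Finset.sum_congr rfl fun d _ => hR3 d] at h4
    simp only [intervalIntegral.integral_const, Finset.sum_const_zero, smul_eq_mul] at h4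
    rw [hc] at h4
    linarith
  have hlim : Tendsto (fun D : ℕ => SigSq θ + 2 * ∑' d : ℕ, 5 * θ⁻¹ ^ (d + (D + 1))) atTop (𝓝 (SigSq θ + 2 * 0)) := by
    refine Tendsto.const_add _ (Tendsto.const_mul _ ?_)
    have h1 := tendsto_sum_nat_add fun d : ℕ => 5 * θ⁻¹ ^ d
    have h2 := h1.comp (tendsto_add_atTop_nat 1)
    exact h2
  have := ge_of_tendsto' hlim key
  linarith

/-! ### irrational powers and the base three -/

lemma var67 {α β : ℝ} (θ : ℝ) (h0 : 0 ≤ α) (h1 : α < β) (h2 : β ≤ 1) :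
    rho θ (chi α β) 0 = (β - α) * (1 - (β - α)) := by
  rw [rho_zero]
  have hbv := bv67 h0 h1 h2
  have e : ∀ t : ℝ, chi α β t ^ 2 = (β - α) * (1 - (β - α)) + (1 - 2 * (β - α)) * chi α β t := by
    intro t
    unfold chi
    split_ifs <;> ring
  simp only [e]
  have hc : ∫ t in (0 : ℝ)..1, (1 - 2 * (β - α)) * chi α β t = (1 - 2 * (β - α)) * ∫ t in (0 : ℝ)..1, chi α β t :=
    intervalIntegral.integral_const_mul _ _
  rw [intervalIntegral.integral_add intervalIntegrable_const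
    ((ii67 hbv.meas hbv.bdd 0 1).const_mul _), hc, hbv.mean]
  simp

theorem SigSq_irr {θ : ℝ} (hθ : 1 < θ) (hirr : ∀ k : ℕ, 1 ≤ k → Irrational (θ ^ k)) : SigSq θ = 1 / 4 := by
  refine le_antisymm ?_ (SigSq_ge hθ)
  refine csSup_le ⟨_, 0, 1, le_rfl, zero_lt_one, le_rfl, rfl⟩ ?_
  rintro _ ⟨α, β, h0, h1, h2, rfl⟩
  unfold sig
  have h3 : ∀ d : ℕ, rho θ (chi α β) (d + 1) = 0 := fun d => rho_of_irr _ (hirr _ (Nat.le_add_left 1 d))
  simp only [h3, tsum_zero, mul_zero, add_zero]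
  rw [var67 θ h0 h1 h2]
  nlinarith [sq_nonneg (β - α - 1 / 2)]

theorem SigSq_three : 1 / 2 ≤ SigSq 3 := by
  have h1 := sig_le67 (θ := 3) (by norm_num) (α := 0) (β := 0 + 1 / 2) le_rfl (by norm_num) (by norm_num)
  refine le_trans (le_of_eq ?_) h1
  unfold sig
  rw [rho0_67 3 le_rfl (by norm_num)]
  have h2 : ∀ d : ℕ, rho 3 (chi 0 (0 + 1 / 2)) (d + 1) = (1 / 12) * (1 / 3) ^ d := by
    intro d
    have hr : (((3 ^ (d + 1) : ℕ) : ℚ) : ℝ) = (3 : ℝ) ^ (d + 1) := by push_cast; rfl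
    rw [rho_of_eq _ hr, half67 le_rfl (by norm_num)]
    have h3 := chi_corr (d + 1)
    have h4 : ∫ t in (0 : ℝ)..1, Helper44.KD.chi ((((3 ^ (d + 1) : ℕ) : ℚ).num : ℝ) * t - 0) *
        Helper44.KD.chi ((((3 ^ (d + 1) : ℕ) : ℚ).den : ℝ) * t - 0) = ∫ t in (0 : ℝ)..1, Helper44.KD.chi t * Helper44.KD.chi (3 ^ (d + 1) * t) := by
      rw [Rat.num_natCast, Rat.den_natCast]
      refine intervalIntegral.integral_congr fun t _ => ?_
      have e : (((3 ^ (d + 1) : ℕ) : ℤ) : ℝ) = 3 ^ (d + 1) := by push_cast; rfl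
      simp only [sub_zero, Nat.cast_one, one_mul, e]
      exact mul_comm _ _
    rw [h4, h3, pow_succ]
    ring
  simp only [h2]
  rw [tsum_mul_left, tsum_geometric_of_lt_one (by norm_num) (by norm_num)]
  norm_num

end Pool.Agent.Helper67.KD
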