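import Pool.Agent.Helper67.KD.F4

/-!
# KD block H1: the variance constant of a geometric progression with a rational power
-/

set_option autoImplicit false

namespace Pool.Agent.Helper67.KD

open MeasureTheory Set Filter Topology
open Pool.Agent.Helper78.KD (chi rho sig SigSq rho_of_eq rho_of_irr rho_zero)
open H44TX

/-- Hermite's identity -/
lemma hermite67 (t : ℝ) {Q : ℕ} (hQ : 0 < Q) : ∑ j ∈ Finset.range Q, (⌊(t + j) / Q⌋ : ℝ) = ⌊t⌋ := by
  have hQ' : (Q : ℤ) ≠ 0 := by exact_mod_cast hQ.ne'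
  have h1 : ∀ n : ℤ, ∑ j ∈ Finset.range Q, (n + j) / (Q : ℤ) = n := by
    have hstep : ∀ n : ℤ, ∑ j ∈ Finset.range Q, (n + 1 + j) / (Q : ℤ) =
        ∑ j ∈ Finset.range Q, (n + j) / (Q : ℤ) + 1 := by
      intro n
      have e1 := Finset.sum_range_succ' (fun j : ℕ => (n + j) / (Q : ℤ)) Q
      have e2 := Finset.sum_range_succ (fun j : ℕ => (n + j) / (Q : ℤ)) Q
      rw [e1] at e2
      have e3 : (n + (Q : ℤ)) / (Q : ℤ) = n / (Q : ℤ) + 1 := by
        rw [Int.add_ediv_of_dvd_right (dvd_refl _), Int.ediv_self hQ']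
      have e4 : ∑ j ∈ Finset.range Q, (n + ((j + 1 : ℕ) : ℤ)) / (Q : ℤ) =
          ∑ j ∈ Finset.range Q, (n + 1 + j) / (Q : ℤ) := by
        refine Finset.sum_congr rfl fun j _ => ?_
        push_cast
        congr 1
        ring
      rw [e3, e4] at e2
      simp only [Nat.cast_zero, add_zero] at e2
      linarith
    have h0 : ∑ j ∈ Finset.range Q, ((0 : ℤ) + j) / (Q : ℤ) = 0 := by
      refine Finset.sum_eq_zero fun j hj => ?_
      rw [zero_add]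
      exact Int.ediv_eq_zero_of_lt (by positivity) (by exact_mod_cast Finset.mem_range.mp hj)
    intro n
    induction n using Int.induction_on with
    | zero => exact h0
    | succ n ih => rw [hstep, ih]
    | pred n ih =>
      have h2 := hstep (-(n : ℤ) - 1)
      have h3 : (-(n : ℤ) - 1 + 1) = -(n : ℤ) := by ring
      rw [h3, ih] at h2
      linarith
  have h2 : ∀ j : ℕ, ⌊(t + j) / Q⌋ = (⌊t⌋ + j) / (Q : ℤ) := by
    intro j
    rw [Int.floor_div_natCast, Int.floor_add_natCast]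
  simp only [h2]
  exact_mod_cast h1 ⌊t⌋

/-- the centred arc -/
noncomputable def ps67 (a b t : ℝ) : ℝ := (⌊t - a⌋ : ℝ) - ⌊t - b⌋ - (b - a)

lemma ps_div67 {Q : ℕ} (hQ : 0 < Q) (a b t : ℝ) :
    ∑ j ∈ Finset.range Q, ps67 a b ((t + j) / Q) = ps67 (Q * a) (Q * b) t := by
  have hQ' : (Q : ℝ) ≠ 0 := by exact_mod_cast hQ.ne'
  have h1 : ∀ c : ℝ, ∑ j ∈ Finset.range Q, (⌊(t + j) / Q - c⌋ : ℝ) = ⌊t - Q * c⌋ := by
    intro c
    rw [← hermite67 (t - Q * c) hQ]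
    refine Finset.sum_congr rfl fun j _ => ?_
    have e : (t + j) / Q - c = (t - Q * c + j) / Q := by
      field_simp
      ring
    rw [e]
  unfold ps67
  rw [Finset.sum_sub_distrib, Finset.sum_sub_distrib, h1, h1, Finset.sum_const, Finset.card_range, nsmul_eq_mul]
  ring

lemma ps_per67 (a b : ℝ) : Function.Periodic (ps67 a b) 1 := by
  intro t
  unfold ps67
  have e : ∀ c : ℝ, ⌊t + 1 - c⌋ = ⌊t - c⌋ + 1 := by
    intro c
    rw [← Int.floor_add_one]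
    congr 1
    ring
  rw [e, e]
  push_cast
  ring

lemma ps_val67 (a b t : ℝ) : ps67 a b t = - Int.fract (b - a) ∨ ps67 a b t = 1 - Int.fract (b - a) := by
  have h1 : (⌊b - a⌋ : ℝ) + Int.fract (b - a) = b - a := Int.floor_add_fract _
  have h2 : ⌊t - a⌋ = ⌊t - b⌋ + ⌊b - a⌋ ∨ ⌊t - a⌋ = ⌊t - b⌋ + ⌊b - a⌋ + 1 := by
    have h3 := Int.le_floor_add (t - b) (b - a)
    have h4 := Int.le_floor_add_floor (t - b) (b - a)
    have e : t - b + (b - a) = t - a := by ring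
    rw [e] at h3 h4
    omega
  unfold ps67
  rcases h2 with h2 | h2
  · left
    rw [h2]
    push_cast
    linarith
  · right
    rw [h2]
    push_cast
    linarith

lemma ps_abs67 (a b t : ℝ) : |ps67 a b t| ≤ 1 := by
  have h1 := Int.fract_nonneg (b - a)
  have h2 := (Int.fract_lt_one (b - a)).le
  rw [abs_le]
  rcases ps_val67 a b t with h | h <;> rw [h] <;> constructor <;> linarith

lemma ps_meas67 (a b : ℝ) : Measurable (ps67 a b) := by
  have h : ∀ c : ℝ, Measurable fun t : ℝ => (⌊t - c⌋ : ℝ) := fun c => by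
    have hm : Monotone fun t : ℝ => (⌊t - c⌋ : ℝ) := by
      intro s t hst
      show (⌊s - c⌋ : ℝ) ≤ ⌊t - c⌋
      exact_mod_cast Int.floor_le_floor (by linarith : s - c ≤ t - c)
    exact hm.measurable
  exact ((h a).sub (h b)).sub measurable_const

lemma int_floor'67 (a : ℝ) : ∫ t in (0 : ℝ)..1, (⌊t - a⌋ : ℝ) = -a := by
  have h1 : ∀ t : ℝ, (⌊t - a⌋ : ℝ) = (⌊t - Int.fract a⌋ : ℝ) - ⌊a⌋ := by
    intro t
    have e : t - a = t - Int.fract a - (⌊a⌋ : ℝ) := by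
      have := Int.floor_add_fract a
      linarith
    have e' : ⌊t - a⌋ = ⌊t - Int.fract a⌋ - ⌊a⌋ := by rw [e, Int.floor_sub_intCast]
    rw [e']
    push_cast
    ring
  simp only [h1]
  have hI : IntervalIntegrable (fun t : ℝ => (⌊t - Int.fract a⌋ : ℝ)) volume 0 1 := by
    have hm : Monotone fun t : ℝ => (⌊t - Int.fract a⌋ : ℝ) := by
      intro s t hst
      show (⌊s - Int.fract a⌋ : ℝ) ≤ ⌊t - Int.fract a⌋
      exact_mod_cast Int.floor_le_floor (by linarith : s - Int.fract a ≤ t - Int.fract a)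
    exact hm.intervalIntegrable
  rw [intervalIntegral.integral_sub hI intervalIntegrable_const, int_floor67 (Int.fract_nonneg a) (Int.fract_lt_one a).le,
    intervalIntegral.integral_const, sub_zero, one_smul]
  have := Int.floor_add_fract a
  linarith

lemma int_ps67 (a b : ℝ) : ∫ t in (0 : ℝ)..1, ps67 a b t = 0 := by
  have i1 : ∀ c : ℝ, IntervalIntegrable (fun t : ℝ => (⌊t - c⌋ : ℝ)) volume 0 1 := fun c => by
    have hm : Monotone fun t : ℝ => (⌊t - c⌋ : ℝ) := by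
      intro s t hst
      show (⌊s - c⌋ : ℝ) ≤ ⌊t - c⌋
      exact_mod_cast Int.floor_le_floor (by linarith : s - c ≤ t - c)
    exact hm.intervalIntegrable
  unfold ps67
  rw [intervalIntegral.integral_sub ((i1 a).sub (i1 b)) intervalIntegrable_const,
    intervalIntegral.integral_sub (i1 a) (i1 b), int_floor'67, int_floor'67, intervalIntegral.integral_const, sub_zero,
    one_smul]
  ring

lemma ps_sq67 (a b t : ℝ) : ps67 a b t ^ 2 =
    Int.fract (b - a) * (1 - Int.fract (b - a)) + (1 - 2 * Int.fract (b - a)) * ps67 a b t := by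
  rcases ps_val67 a b t with h | h <;> rw [h] <;> ring

lemma ii_ps67 (a b c d : ℝ) : IntervalIntegrable (ps67 a b) volume c d := ii67 (ps_meas67 a b) (ps_abs67 a b) c d

lemma int_ps_sq67 (a b : ℝ) : ∫ t in (0 : ℝ)..1, ps67 a b t ^ 2 = Int.fract (b - a) * (1 - Int.fract (b - a)) := by
  simp only [ps_sq67]
  have hc : ∫ t in (0 : ℝ)..1, (1 - 2 * Int.fract (b - a)) * ps67 a b t =
      (1 - 2 * Int.fract (b - a)) * ∫ t in (0 : ℝ)..1, ps67 a b t := intervalIntegral.integral_const_mul _ _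
  rw [intervalIntegral.integral_add intervalIntegrable_const ((ii_ps67 a b 0 1).const_mul _), hc, int_ps67,
    intervalIntegral.integral_const, sub_zero, one_smul]
  ring

lemma int_ps_sq_le67 (a b : ℝ) : ∫ t in (0 : ℝ)..1, ps67 a b t ^ 2 ≤ 1 / 4 := by
  rw [int_ps_sq67]
  nlinarith [sq_nonneg (Int.fract (b - a) - 1 / 2)]

lemma ii_mul67 (a b c d e f : ℝ) : IntervalIntegrable (fun t => ps67 a b t * ps67 c d t) volume e f :=
  ii67 ((ps_meas67 a b).mul (ps_meas67 c d)) (C := 1) (fun t => by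
    show |ps67 a b t * ps67 c d t| ≤ 1
    rw [abs_mul]
    exact mul_le_one₀ (ps_abs67 a b t) (abs_nonneg _) (ps_abs67 c d t)) e f

lemma ii_sq67 (a b e f : ℝ) : IntervalIntegrable (fun t => ps67 a b t ^ 2) volume e f := by
  simp only [sq]
  exact ii_mul67 a b a b e f

lemma cross67 (a b c d : ℝ) : |∫ t in (0 : ℝ)..1, ps67 a b t * ps67 c d t| ≤ 1 / 4 := by
  have h1 := int_ps_sq_le67 a b
  have h2 := int_ps_sq_le67 c d
  have hs : ∫ t in (0 : ℝ)..1, (ps67 a b t ^ 2 + ps67 c d t ^ 2) / 2 =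
      ((∫ t in (0 : ℝ)..1, ps67 a b t ^ 2) + ∫ t in (0 : ℝ)..1, ps67 c d t ^ 2) / 2 := by
    rw [intervalIntegral.integral_div, intervalIntegral.integral_add (ii_sq67 a b 0 1) (ii_sq67 c d 0 1)]
  have hi := ((ii_sq67 a b 0 1).add (ii_sq67 c d 0 1)).div_const 2
  rw [abs_le]
  constructor
  · have h3 := intervalIntegral.integral_mono_on (zero_le_one (α := ℝ)) hi.neg (ii_mul67 a b c d 0 1) (fun t _ => by
      show - ((ps67 a b t ^ 2 + ps67 c d t ^ 2) / 2) ≤ ps67 a b t * ps67 c d t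
      nlinarith [sq_nonneg (ps67 a b t + ps67 c d t)])
    have h4 : ∫ t in (0 : ℝ)..1, -((ps67 a b t ^ 2 + ps67 c d t ^ 2) / 2) =
        - ∫ t in (0 : ℝ)..1, (ps67 a b t ^ 2 + ps67 c d t ^ 2) / 2 := intervalIntegral.integral_neg
    have h5 : ∫ t in (0 : ℝ)..1, -((ps67 a b t ^ 2 + ps67 c d t ^ 2) / 2) ≤ ∫ t in (0 : ℝ)..1, ps67 a b t * ps67 c d t := h3
    rw [h4, hs] at h5
    linarith
  · have h3 := intervalIntegral.integral_mono_on (zero_le_one (α := ℝ)) (ii_mul67 a b c d 0 1) hi (fun t _ => by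
      show ps67 a b t * ps67 c d t ≤ (ps67 a b t ^ 2 + ps67 c d t ^ 2) / 2
      nlinarith [sq_nonneg (ps67 a b t - ps67 c d t)])
    have h5 : ∫ t in (0 : ℝ)..1, ps67 a b t * ps67 c d t ≤ ∫ t in (0 : ℝ)..1, (ps67 a b t ^ 2 + ps67 c d t ^ 2) / 2 := h3
    rw [hs] at h5
    linarith

/-! ### the covariance of the multiples by coprime integers -/

lemma crt67 {P Q : ℕ} (hP : 0 < P) (hQ : 0 < Q) (h : Nat.Coprime P Q) (F G : ℕ → ℝ) :
    ∑ j ∈ Finset.range (P * Q), F (j % Q) * G (j % P) = (∑ a ∈ Finset.range Q, F a) * ∑ b ∈ Finset.range P, G b := by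
  have hinj : Set.InjOn (fun j : ℕ => (j % Q, j % P)) (Finset.range (P * Q) : Set ℕ) := by
    intro i hi j hj hij
    simp only [Prod.mk.injEq] at hij
    have h1 : i ≡ j [MOD P * Q] := (Nat.modEq_and_modEq_iff_modEq_mul h).mp ⟨hij.2, hij.1⟩
    have hi' : i < P * Q := by simpa using hi
    have hj' : j < P * Q := by simpa using hj
    exact Nat.ModEq.eq_of_lt_of_lt h1 hi' hj'
  have him : (Finset.range (P * Q)).image (fun j : ℕ => (j % Q, j % P)) = Finset.range Q ×ˢ Finset.range P := by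
    refine Finset.eq_of_subset_of_card_le ?_ ?_
    · intro x hx
      obtain ⟨j, -, rfl⟩ := Finset.mem_image.mp hx
      exact Finset.mem_product.mpr ⟨Finset.mem_range.mpr (Nat.mod_lt _ hQ), Finset.mem_range.mpr (Nat.mod_lt _ hP)⟩
    · rw [Finset.card_image_of_injOn hinj, Finset.card_product, Finset.card_range, Finset.card_range, Finset.card_range,
        mul_comm]
  rw [Finset.sum_mul_sum, ← Finset.sum_product', ← him, Finset.sum_image hinj]

lemma cov67 {φ : ℝ → ℝ} (hφ : Function.Periodic φ 1) (hm : Measurable φ) (hb : ∀ t, |φ t| ≤ 1) {P Q : ℕ} (hP : 0 < P)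
    (hQ : 0 < Q) (h : Nat.Coprime P Q) :
    ∫ t in (0 : ℝ)..1, φ ((P : ℝ) * t) * φ ((Q : ℝ) * t) = 1 / ((P : ℝ) * Q) *
      ∫ u in (0 : ℝ)..1, (∑ a ∈ Finset.range Q, φ ((u + a) / Q)) * ∑ b ∈ Finset.range P, φ ((u + b) / P) := by
  have hP' : (P : ℝ) ≠ 0 := by exact_mod_cast hP.ne'
  have hQ' : (Q : ℝ) ≠ 0 := by exact_mod_cast hQ.ne'
  let H : ℝ → ℝ := fun t => φ ((P : ℝ) * t) * φ ((Q : ℝ) * t)
  have hHm : ∀ c d : ℝ, Measurable fun s : ℝ => H ((s + c) / d) := fun c d => by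
    have h1 : ∀ e : ℝ, Measurable fun s : ℝ => φ (e * ((s + c) / d)) := fun e =>
      hm.comp (((measurable_id.add_const c).div_const d).const_mul e)
    exact (h1 P).mul (h1 Q)
  have hHb : ∀ t, |H t| ≤ 1 := fun t => by
    show |φ ((P : ℝ) * t) * φ ((Q : ℝ) * t)| ≤ 1
    rw [abs_mul]
    exact mul_le_one₀ (hb _) (abs_nonneg _) (hb _)
  obtain ⟨N, hN⟩ : ∃ N : ℕ, N = P * Q := ⟨_, rfl⟩
  have hN0 : (N : ℝ) ≠ 0 := by
    rw [hN]
    push_cast
    exact mul_ne_zero hP' hQ'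
  have hI : ∀ c a b : ℝ, IntervalIntegrable (fun s => H ((s + c) / N)) volume a b := fun c a b =>
    ii67 (hHm c N) (C := 1) (fun s => hHb _) a b
  have h1 : ∫ s in (0 : ℝ)..N, H (s / N) = (N : ℝ) * ∫ t in (0 : ℝ)..1, H t := by
    rw [intervalIntegral.integral_comp_div (fun t => H t) hN0, zero_div, div_self hN0, smul_eq_mul]
  have h2 : ∫ s in (0 : ℝ)..N, H (s / N) = ∑ j ∈ Finset.range N, ∫ s in (0 : ℝ)..1, H ((s + j) / N) := by
    have h3 := intervalIntegral.sum_integral_adjacent_intervals (a := fun j : ℕ => (j : ℝ)) (f := fun s => H (s / N))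
      (μ := volume) (n := N) (fun j _ => by
        have := hI 0 (j : ℝ) ((j + 1 : ℕ) : ℝ)
        simpa only [add_zero] using this)
    rw [Nat.cast_zero] at h3
    rw [← h3]
    refine Finset.sum_congr rfl fun j _ => ?_
    rw [intervalIntegral.integral_comp_add_right (fun s => H (s / N))]
    congr 1
    · ring
    · push_cast
      ring
  have h4 : ∑ j ∈ Finset.range N, ∫ s in (0 : ℝ)..1, H ((s + j) / N) =
      ∫ s in (0 : ℝ)..1, ∑ j ∈ Finset.range N, H ((s + j) / N) := by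
    rw [intervalIntegral.integral_finsetSum fun (j : ℕ) _ => hI (j : ℝ) 0 1]
  have h5 : ∀ s : ℝ, ∑ j ∈ Finset.range N, H ((s + j) / N) =
      (∑ a ∈ Finset.range Q, φ ((s + a) / Q)) * ∑ b ∈ Finset.range P, φ ((s + b) / P) := by
    intro s
    rw [← crt67 hP hQ h, hN]
    refine Finset.sum_congr rfl fun j _ => ?_
    have hmod : ∀ {R : ℕ}, 0 < R → φ ((s + j) / R) = φ ((s + (j % R : ℕ)) / R) := by
      intro R hR
      have hR' : (R : ℝ) ≠ 0 := by exact_mod_cast hR.ne'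
      have e : (s + j) / R = (s + (j % R : ℕ)) / R + (j / R : ℕ) := by
        have h6 : (j : ℝ) = (R : ℝ) * (j / R : ℕ) + (j % R : ℕ) := by exact_mod_cast (Nat.div_add_mod j R).symm
        have h7 : s + (j : ℝ) = (s + (j % R : ℕ)) + (j / R : ℕ) * (R : ℝ) := by linarith
        rw [h7, add_div, mul_div_assoc, div_self hR', mul_one]
      have h8 := (hφ.nat_mul (j / R)) ((s + (j % R : ℕ)) / R)
      rw [mul_one] at h8
      rw [e]
      exact h8
    show φ ((P : ℝ) * ((s + j) / (P * Q : ℕ))) * φ ((Q : ℝ) * ((s + j) / (P * Q : ℕ))) = _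
    have e1 : (P : ℝ) * ((s + j) / (P * Q : ℕ)) = (s + j) / Q := by
      push_cast
      field_simp
    have e2 : (Q : ℝ) * ((s + j) / (P * Q : ℕ)) = (s + j) / P := by
      push_cast
      field_simp
    rw [e1, e2, hmod hQ, hmod hP]
  rw [h4] at h2
  simp only [h5] at h2
  rw [h1] at h2
  have h6 : ∫ t in (0 : ℝ)..1, φ ((P : ℝ) * t) * φ ((Q : ℝ) * t) = ∫ t in (0 : ℝ)..1, H t := rfl
  rw [h6, ← h2, hN]
  push_cast
  field_simp

/-- the covariance of the multiples of an arc -/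
lemma cov_ps67 (α β : ℝ) {P Q : ℕ} (hP : 0 < P) (hQ : 0 < Q) (h : Nat.Coprime P Q) :
    ∫ t in (0 : ℝ)..1, ps67 α β ((P : ℝ) * t) * ps67 α β ((Q : ℝ) * t) = 1 / ((P : ℝ) * Q) *
      ∫ u in (0 : ℝ)..1, ps67 (Q * α) (Q * β) u * ps67 (P * α) (P * β) u := by
  rw [cov67 (ps_per67 α β) (ps_meas67 α β) (ps_abs67 α β) hP hQ h]
  simp only [ps_div67 hP, ps_div67 hQ]

lemma cov_le67 (α β : ℝ) {P Q : ℕ} (hP : 0 < P) (hQ : 0 < Q) (h : Nat.Coprime P Q) :
    |∫ t in (0 : ℝ)..1, ps67 α β ((P : ℝ) * t) * ps67 α β ((Q : ℝ) * t)| ≤ 1 / 4 * (1 / ((P : ℝ) * Q)) := by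
  have hP' : (0 : ℝ) < P := by exact_mod_cast hP
  have hQ' : (0 : ℝ) < Q := by exact_mod_cast hQ
  rw [cov_ps67 α β hP hQ h, abs_mul, abs_of_pos (by positivity), mul_comm]
  exact mul_le_mul_of_nonneg_right (cross67 _ _ _ _) (by positivity)

/-- the covariance of the odd multiples of the half circle -/
lemma cov_half67 {P Q : ℕ} (hP : Odd P) (hQ : Odd Q) (h : Nat.Coprime P Q) :
    ∫ t in (0 : ℝ)..1, ps67 0 (1 / 2) ((P : ℝ) * t) * ps67 0 (1 / 2) ((Q : ℝ) * t) = 1 / 4 * (1 / ((P : ℝ) * Q)) := by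
  have hodd : ∀ {R : ℕ}, Odd R → ∀ u : ℝ, ps67 (R * 0) (R * (1 / 2)) u = ps67 0 (1 / 2) u := by
    rintro R ⟨m, rfl⟩ u
    unfold ps67
    have e : u - ((2 * m + 1 : ℕ) : ℝ) * (1 / 2) = u - 1 / 2 - (m : ℝ) := by
      push_cast
      ring
    have e' : ⌊u - ((2 * m + 1 : ℕ) : ℝ) * (1 / 2)⌋ = ⌊u - 1 / 2⌋ - m := by rw [e, Int.floor_sub_natCast]
    rw [e', mul_zero]
    push_cast
    ring
  rw [cov_ps67 0 (1 / 2) hP.pos hQ.pos h]
  simp only [hodd hP, hodd hQ]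
  have h1 : ∫ u in (0 : ℝ)..1, ps67 0 (1 / 2) u * ps67 0 (1 / 2) u = 1 / 4 := by
    have h2 := int_ps_sq67 0 (1 / 2)
    have h3 : Int.fract ((1 : ℝ) / 2 - 0) = 1 / 2 := by
      rw [sub_zero, Int.fract_eq_self]
      norm_num
    rw [h3] at h2
    simp only [sq] at h2
    rw [h2]
    norm_num
  rw [h1]
  ring

/-! ### the powers -/

section pow

variable {θ : ℝ} {r p q : ℕ}

lemma pq67 (hθ : 1 < θ) (hr : 1 ≤ r) (hq : 0 < q) (hpow : θ ^ r = p / q) : q < p := by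
  have h1 : 1 < θ ^ r := one_lt_pow₀ hθ (by omega)
  rw [hpow, one_lt_div (by exact_mod_cast hq)] at h1
  exact_mod_cast h1

lemma rho_mul67 (hp : 0 < p) (hq : 0 < q) (hpq : Nat.Coprime p q) (hpow : θ ^ r = p / q) (φ : ℝ → ℝ) (a : ℕ) :
    rho θ φ (r * a) = ∫ t in (0 : ℝ)..1, φ (((p ^ a : ℕ) : ℝ) * t) * φ (((q ^ a : ℕ) : ℝ) * t) := by
  have h1 : ((((p : ℤ) : ℚ) / ((q : ℤ) : ℚ)) ^ a : ℚ) = (((p ^ a : ℕ) : ℤ) : ℚ) / (((q ^ a : ℕ) : ℤ) : ℚ) := by
    push_cast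
    rw [div_pow]
  have hx : ((((((p ^ a : ℕ) : ℤ) : ℚ) / (((q ^ a : ℕ) : ℤ) : ℚ)) : ℚ) : ℝ) = θ ^ (r * a) := by
    rw [pow_mul, hpow]
    push_cast
    rw [div_pow]
  rw [rho_of_eq φ hx]
  have hq' : (0 : ℤ) < ((q ^ a : ℕ) : ℤ) := by exact_mod_cast Nat.pow_pos hq
  have hc : Nat.Coprime (((p ^ a : ℕ) : ℤ)).natAbs (((q ^ a : ℕ) : ℤ)).natAbs := by
    rw [Int.natAbs_natCast, Int.natAbs_natCast]
    exact Nat.Coprime.pow a a hpq
  have h2 := Rat.num_div_eq_of_coprime hq' hc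
  have h3 := Rat.den_div_eq_of_coprime hq' hc
  rw [h2]
  have h4 : ((((((p ^ a : ℕ) : ℤ) : ℚ) / (((q ^ a : ℕ) : ℤ) : ℚ)) : ℚ).den : ℝ) = ((q ^ a : ℕ) : ℝ) := by
    exact_mod_cast h3
  rw [h4]
  simp only [Int.cast_natCast]

lemma rho_off67 (hr : 1 ≤ r) (hpow : θ ^ r = p / q) (hirr : ∀ j : ℕ, 1 ≤ j → j < r → Irrational (θ ^ j))
    (hθ : 1 < θ) (φ : ℝ → ℝ) {d : ℕ} (hd : ¬ r ∣ d) : rho θ φ d = 0 := by
  apply rho_of_irr
  have h0 : 0 < d % r := Nat.pos_of_ne_zero fun h => hd (Nat.dvd_of_mod_eq_zero h)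
  have h1 := hirr (d % r) h0 (Nat.mod_lt _ hr)
  rintro ⟨x, hx⟩
  apply h1
  refine ⟨x / ((p : ℚ) / q) ^ (d / r), ?_⟩
  push_cast
  rw [hx, ← hpow, ← pow_mul]
  nth_rw 1 [← Nat.div_add_mod d r]
  rw [pow_add]
  have : θ ^ (r * (d / r)) ≠ 0 := by positivity
  field_simp

lemma tsum_rho67 (hr : 1 ≤ r) (hpow : θ ^ r = p / q) (hirr : ∀ j : ℕ, 1 ≤ j → j < r → Irrational (θ ^ j))
    (hθ : 1 < θ) (φ : ℝ → ℝ) : ∑' d : ℕ, rho θ φ (d + 1) = ∑' a : ℕ, rho θ φ (r * (a + 1)) := by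
  have hg : ∀ a : ℕ, r * (a + 1) - 1 + 1 = r * (a + 1) := fun a =>
    Nat.sub_add_cancel (Nat.one_le_iff_ne_zero.mpr (Nat.mul_ne_zero (by omega) (by omega)))
  have hinj : Function.Injective fun a : ℕ => r * (a + 1) - 1 := by
    intro a b hab
    have h1 : r * (a + 1) = r * (b + 1) := by
      rw [← hg a, ← hg b]
      exact congrArg (· + 1) hab
    have := Nat.eq_of_mul_eq_mul_left (by omega : 0 < r) h1
    omega
  have h2 := hinj.tsum_eq (f := fun d : ℕ => rho θ φ (d + 1)) (by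
    intro d hd
    by_contra hcon
    apply hd
    apply rho_off67 hr hpow hirr hθ
    rintro ⟨c, hc⟩
    apply hcon
    refine ⟨c - 1, ?_⟩
    have hc0 : c ≠ 0 := by
      rintro rfl
      omega
    show r * (c - 1 + 1) - 1 = d
    rw [Nat.sub_add_cancel (Nat.one_le_iff_ne_zero.mpr hc0), ← hc]
    omega)
  rw [← h2]
  refine tsum_congr fun a => ?_
  show rho θ φ (r * (a + 1) - 1 + 1) = rho θ φ (r * (a + 1))
  rw [hg]

lemma geom67 {x : ℝ} (hx : 2 ≤ x) : Summable (fun a : ℕ => 1 / 4 * (1 / x ^ (a + 1))) ∧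
    ∑' a : ℕ, 1 / 4 * (1 / x ^ (a + 1)) = 1 / (4 * (x - 1)) := by
  have h0 : 0 ≤ x⁻¹ := by positivity
  have h1 : x⁻¹ < 1 := inv_lt_one_of_one_lt₀ (by linarith)
  have e : (fun a : ℕ => 1 / 4 * (1 / x ^ (a + 1))) = fun a : ℕ => (1 / 4 * x⁻¹) * x⁻¹ ^ a := by
    funext a
    rw [pow_succ, inv_pow]
    field_simp
  rw [e]
  refine ⟨(summable_geometric_of_lt_one h0 h1).mul_left _, ?_⟩
  rw [tsum_mul_left, tsum_geometric_of_lt_one h0 h1]
  have h2 : x ≠ 0 := by positivity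
  have h3 : x - 1 ≠ 0 := by linarith
  have h4 : 1 - x⁻¹ ≠ 0 := by
    have : 0 < 1 - x⁻¹ := by linarith
    exact this.ne'
  field_simp

lemma chi_ps67 {α β : ℝ} (h0 : 0 ≤ α) (h1 : α ≤ β) (h2 : β ≤ 1) : chi α β = ps67 α β :=
  funext fun t => chi_eq67 h0 h1 h2 t

theorem SigSq_le_rat (hθ : 1 < θ) (hr : 1 ≤ r) (hq : 0 < q) (hpq : Nat.Coprime p q) (hpow : θ ^ r = p / q)
    (hirr : ∀ j : ℕ, 1 ≤ j → j < r → Irrational (θ ^ j)) :
    SigSq θ ≤ ((p : ℝ) * q + 1) / (4 * ((p : ℝ) * q - 1)) := by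
  have hqp := pq67 hθ hr hq hpow
  have hp : 0 < p := hq.trans hqp
  have hx : (2 : ℝ) ≤ (p : ℝ) * q := by
    have : 2 ≤ p * q := by nlinarith
    exact_mod_cast this
  refine csSup_le ⟨_, 0, 1, le_rfl, zero_lt_one, le_rfl, rfl⟩ ?_
  rintro _ ⟨α, β, h0, h1, h2, rfl⟩
  have hbv := bv67 h0 h1 h2
  unfold sig
  rw [tsum_rho67 hr hpow hirr hθ, var67 θ h0 h1 h2]
  have hterm : ∀ a : ℕ, |rho θ (chi α β) (r * (a + 1))| ≤ 1 / 4 * (1 / ((p : ℝ) * q) ^ (a + 1)) := by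
    intro a
    rw [rho_mul67 hp hq hpq hpow, chi_ps67 h0 h1.le h2]
    have h3 := cov_le67 α β (P := p ^ (a + 1)) (Q := q ^ (a + 1)) (Nat.pow_pos hp) (Nat.pow_pos hq)
      (Nat.Coprime.pow _ _ hpq)
    refine h3.trans (le_of_eq ?_)
    push_cast
    rw [mul_pow]
  obtain ⟨hs, ht⟩ := geom67 hx
  have hle : ∑' a : ℕ, rho θ (chi α β) (r * (a + 1)) ≤ 1 / (4 * ((p : ℝ) * q - 1)) := by
    rw [← ht]
    have h3 := tsum_of_norm_bounded hs.hasSum (f := fun a : ℕ => rho θ (chi α β) (r * (a + 1))) (fun a => by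
      rw [Real.norm_eq_abs]
      exact hterm a)
    rw [Real.norm_eq_abs] at h3
    exact (abs_le.mp h3).2
  have hv : (β - α) * (1 - (β - α)) ≤ 1 / 4 := by nlinarith [sq_nonneg (β - α - 1 / 2)]
  have h4 : (p : ℝ) * q - 1 ≠ 0 := by linarith
  have e : ((p : ℝ) * q + 1) / (4 * ((p : ℝ) * q - 1)) = 1 / 4 + 2 * (1 / (4 * ((p : ℝ) * q - 1))) := by
    field_simp
    ring
  rw [e]
  linarith

theorem SigSq_odd (hθ : 1 < θ) (hr : 1 ≤ r) (hq : 0 < q) (hpq : Nat.Coprime p q) (hpow : θ ^ r = p / q)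
    (hirr : ∀ j : ℕ, 1 ≤ j → j < r → Irrational (θ ^ j)) (hp2 : Odd p) (hq2 : Odd q) :
    SigSq θ = ((p : ℝ) * q + 1) / (4 * ((p : ℝ) * q - 1)) := by
  refine le_antisymm (SigSq_le_rat hθ hr hq hpq hpow hirr) ?_
  have hqp := pq67 hθ hr hq hpow
  have hp : 0 < p := hq.trans hqp
  have hx : (2 : ℝ) ≤ (p : ℝ) * q := by
    have : 2 ≤ p * q := by nlinarith
    exact_mod_cast this
  have h1 := sig_le67 hθ (α := 0) (β := 1 / 2) le_rfl (by norm_num) (by norm_num)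
  refine le_trans (le_of_eq ?_) h1
  unfold sig
  rw [tsum_rho67 hr hpow hirr hθ, var67 θ le_rfl (by norm_num) (by norm_num)]
  have hterm : ∀ a : ℕ, rho θ (chi 0 (1 / 2)) (r * (a + 1)) = 1 / 4 * (1 / ((p : ℝ) * q) ^ (a + 1)) := by
    intro a
    rw [rho_mul67 hp hq hpq hpow, chi_ps67 le_rfl (by norm_num) (by norm_num),
      cov_half67 (P := p ^ (a + 1)) (Q := q ^ (a + 1)) hp2.pow hq2.pow (Nat.Coprime.pow _ _ hpq)]
    push_cast
    rw [mul_pow]
  simp only [hterm]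
  rw [(geom67 hx).2]
  have h4 : (p : ℝ) * q - 1 ≠ 0 := by linarith
  field_simp
  ring

end pow

end Pool.Agent.Helper67.KD
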