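import Pool.Agent.Helper67.KD.H1

/-!
# KD block H2: Fukuyama's constants for even bases
-/

set_option autoImplicit false

namespace Pool.Agent.Helper67.KD

open MeasureTheory Set Filter Topology
open Pool.Agent.Helper78.KD (chi rho sig SigSq rho_of_eq rho_of_irr rho_zero)
open H44TX

/-- the covariance of two nested arcs of lengths `x`, `y` -/
noncomputable def V67 (x y : ℝ) : ℝ := min x y - x * y

lemma V_le67 {x y : ℝ} (hx : 0 ≤ x) (_hy : 0 ≤ y) (hx1 : x ≤ 1) (_hy1 : y ≤ 1) : V67 x y ≤ x * (1 - x) := by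
  unfold V67
  rcases le_total x y with h | h
  · rw [min_eq_left h]
    nlinarith
  · rw [min_eq_right h]
    nlinarith

lemma V_nonneg67 {x y : ℝ} (hx : 0 ≤ x) (hy : 0 ≤ y) (hx1 : x ≤ 1) (hy1 : y ≤ 1) : 0 ≤ V67 x y := by
  unfold V67
  rcases le_total x y with h | h
  · rw [min_eq_left h]
    nlinarith
  · rw [min_eq_right h]
    nlinarith

lemma V_le_left67 (x y : ℝ) : V67 x y ≤ x * (1 - y) := by
  unfold V67
  have := min_le_left x y
  linarith

lemma V_le_right67 (x y : ℝ) : V67 x y ≤ y * (1 - x) := by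
  unfold V67
  have := min_le_right x y
  linarith

/-- the covariance of two arcs is largest if they are nested -/
lemma cov_V67 (a b c d : ℝ) : ∫ t in (0 : ℝ)..1, ps67 a b t * ps67 c d t ≤ V67 (Int.fract (b - a)) (Int.fract (d - c)) := by
  obtain ⟨x, hx⟩ : ∃ x, x = Int.fract (b - a) := ⟨_, rfl⟩
  obtain ⟨y, hy⟩ : ∃ y, y = Int.fract (d - c) := ⟨_, rfl⟩
  have hx0 : 0 ≤ x := by rw [hx]; exact Int.fract_nonneg _
  have hy0 : 0 ≤ y := by rw [hy]; exact Int.fract_nonneg _
  have hx1 : x ≤ 1 := by rw [hx]; exact (Int.fract_lt_one _).le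
  have hy1 : y ≤ 1 := by rw [hy]; exact (Int.fract_lt_one _).le
  rw [← hx, ← hy]
  have key : ∀ u v u' v' : ℝ, ∀ t, ps67 u v t * ps67 u' v' t ≤
      (1 - Int.fract (v' - u')) * ps67 u v t - Int.fract (v - u) * ps67 u' v' t +
        Int.fract (v - u) * (1 - Int.fract (v' - u')) := by
    intro u v u' v' t
    have h1 := Int.fract_nonneg (v - u)
    have h2 := Int.fract_lt_one (v - u)
    have h3 := Int.fract_nonneg (v' - u')
    have h4 := Int.fract_lt_one (v' - u')
    rcases ps_val67 u v t with h | h <;> rcases ps_val67 u' v' t with h' | h' <;> rw [h, h'] <;> nlinarith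
  have h2 : ∀ u v u' v' : ℝ, ∫ t in (0 : ℝ)..1, ps67 u v t * ps67 u' v' t ≤
      Int.fract (v - u) * (1 - Int.fract (v' - u')) := by
    intro u v u' v'
    have hi : IntervalIntegrable (fun t => (1 - Int.fract (v' - u')) * ps67 u v t - Int.fract (v - u) * ps67 u' v' t +
        Int.fract (v - u) * (1 - Int.fract (v' - u'))) volume 0 1 :=
      (((ii_ps67 u v 0 1).const_mul _).sub ((ii_ps67 u' v' 0 1).const_mul _)).add intervalIntegrable_const
    have h3 := intervalIntegral.integral_mono_on (zero_le_one (α := ℝ)) (ii_mul67 u v u' v' 0 1) hi (fun t _ => key u v u' v' t)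
    refine h3.trans (le_of_eq ?_)
    have e1 : ∫ t in (0 : ℝ)..1, (1 - Int.fract (v' - u')) * ps67 u v t = 0 := by
      rw [intervalIntegral.integral_const_mul, int_ps67, mul_zero]
    have e2 : ∫ t in (0 : ℝ)..1, Int.fract (v - u) * ps67 u' v' t = 0 := by
      rw [intervalIntegral.integral_const_mul, int_ps67, mul_zero]
    rw [intervalIntegral.integral_add (((ii_ps67 u v 0 1).const_mul _).sub ((ii_ps67 u' v' 0 1).const_mul _))
      intervalIntegrable_const, intervalIntegral.integral_sub ((ii_ps67 u v 0 1).const_mul _)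
      ((ii_ps67 u' v' 0 1).const_mul _), e1, e2, intervalIntegral.integral_const]
    simp
  have h3 := h2 a b c d
  have h4 := h2 c d a b
  have h5 : ∫ t in (0 : ℝ)..1, ps67 c d t * ps67 a b t = ∫ t in (0 : ℝ)..1, ps67 a b t * ps67 c d t := by
    refine intervalIntegral.integral_congr fun t _ => ?_
    exact mul_comm _ _
  rw [h5] at h4
  rw [← hx, ← hy] at h3 h4
  unfold V67
  rcases le_total x y with h | h
  · rw [min_eq_left h]
    linarith
  · rw [min_eq_right h]
    linarith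

/-! ### the sums -/

section sums

variable {p : ℝ} {v : ℕ → ℝ} {x : ℝ}

lemma geo67 {w : ℝ} (hp : 1 < p) (hw : 0 ≤ w) (hv : ∀ a, v a ≤ w) : ∀ N m : ℕ,
    ∑ j ∈ Finset.range N, v (m + j) / p ^ j ≤ w * (p / (p - 1)) := by
  have h1 : 0 < p - 1 := by linarith
  intro N
  induction N with
  | zero =>
    intro m
    simp only [Finset.range_zero, Finset.sum_empty]
    positivity
  | succ N ih =>
    intro m
    rw [Finset.sum_range_succ']
    have e : ∑ j ∈ Finset.range N, v (m + (j + 1)) / p ^ (j + 1) = (∑ j ∈ Finset.range N, v (m + 1 + j) / p ^ j) / p := by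
      rw [Finset.sum_div]
      refine Finset.sum_congr rfl fun j _ => ?_
      rw [pow_succ, div_div, add_assoc, add_comm 1 j]
    rw [e]
    have h2 : (∑ j ∈ Finset.range N, v (m + 1 + j) / p ^ j) / p ≤ w * (p / (p - 1)) / p :=
      div_le_div_of_nonneg_right (ih (m + 1)) (by linarith)
    have h3 : w * (p / (p - 1)) / p + w = w * (p / (p - 1)) := by
      field_simp
      ring
    have h4 := hv m
    rw [add_zero, pow_zero, div_one]
    linarith

lemma shift_sum67 (p : ℝ) (v : ℕ → ℝ) (N m : ℕ) : ∑ j ∈ Finset.range (N + 1), v (m + j) / p ^ j =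
    v m + (∑ j ∈ Finset.range N, v (m + 1 + j) / p ^ j) / p := by
  rw [Finset.sum_range_succ', Finset.sum_div, add_zero, pow_zero, div_one, add_comm]
  congr 1
  refine Finset.sum_congr rfl fun j _ => ?_
  rw [pow_succ, div_div, add_assoc, add_comm 1 j]

/-- the sum over `a ≥ 2`, base two -/
lemma pair67 {G : ℝ} (hG : 0 ≤ G) (hv : ∀ a, v a ≤ G) (hvv : ∀ a, v a + v (a + 1) / 2 ≤ G) : ∀ N m : ℕ,
    ∑ j ∈ Finset.range N, v (m + j) / 2 ^ j ≤ 4 / 3 * G := by
  have key : ∀ N : ℕ, (∀ m, ∑ j ∈ Finset.range N, v (m + j) / 2 ^ j ≤ 4 / 3 * G) ∧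
      ∀ m, ∑ j ∈ Finset.range (N + 1), v (m + j) / 2 ^ j ≤ 4 / 3 * G := by
    intro N
    induction N with
    | zero =>
      refine ⟨fun m => ?_, fun m => ?_⟩
      · simp only [Finset.range_zero, Finset.sum_empty]
        positivity
      · rw [shift_sum67]
        simp only [Finset.range_zero, Finset.sum_empty, zero_div, add_zero]
        linarith [hv m]
    | succ N ih =>
      refine ⟨ih.2, fun m => ?_⟩
      rw [shift_sum67, shift_sum67]
      have h1 := ih.1 (m + 1 + 1)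
      have h2 := hvv m
      linarith
  exact fun N => (key N).1

end sums

/-- the bound for the series in terms of its partial sums -/
noncomputable def S67 (p : ℝ) (x : ℝ) (v : ℕ → ℝ) (N : ℕ) : ℝ := x * (1 - x) + 2 / p * ∑ j ∈ Finset.range N, v (1 + j) / p ^ j

section bounds

variable {x : ℝ} {y : ℕ → ℝ}

lemma S_trivial67 {p : ℝ} (hp : 1 < p) (hx : 0 ≤ x) (hx1 : x ≤ 1) (hy : ∀ a, 0 ≤ y a ∧ y a ≤ 1) (N : ℕ) :
    S67 p x (fun a => V67 x (y a)) N ≤ x * (1 - x) * ((p + 1) / (p - 1)) := by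
  have hw : 0 ≤ x * (1 - x) := mul_nonneg hx (by linarith)
  have h1 := geo67 (v := fun a => V67 x (y a)) hp hw (fun a => V_le67 hx (hy a).1 hx1 (hy a).2) N 1
  have h2 : 0 < p - 1 := by linarith
  have h3 : 0 < p := by linarith
  unfold S67
  have h4 : 2 / p * ∑ j ∈ Finset.range N, V67 x (y (1 + j)) / p ^ j ≤ 2 / p * (x * (1 - x) * (p / (p - 1))) :=
    mul_le_mul_of_nonneg_left h1 (by positivity)
  have h5 : x * (1 - x) + 2 / p * (x * (1 - x) * (p / (p - 1))) = x * (1 - x) * ((p + 1) / (p - 1)) := by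
    field_simp
    ring
  linarith

/-- one exact term -/
lemma S_one67 {p : ℝ} (hp : 1 < p) (hx : 0 ≤ x) (hx1 : x ≤ 1) (hy : ∀ a, 0 ≤ y a ∧ y a ≤ 1) (N : ℕ) :
    S67 p x (fun a => V67 x (y a)) (N + 1) ≤ x * (1 - x) * (1 + 2 / (p * (p - 1))) + 2 / p * V67 x (y 1) := by
  have hw : 0 ≤ x * (1 - x) := mul_nonneg hx (by linarith)
  have h1 := geo67 (v := fun a => V67 x (y a)) hp hw (fun a => V_le67 hx (hy a).1 hx1 (hy a).2) N 2
  have h2 : 0 < p - 1 := by linarith
  have h3 : 0 < p := by linarith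
  unfold S67
  rw [shift_sum67 p (fun a => V67 x (y a)) N 1]
  have h4 : (∑ j ∈ Finset.range N, V67 x (y (2 + j)) / p ^ j) / p ≤ (x * (1 - x) * (p / (p - 1))) / p :=
    div_le_div_of_nonneg_right h1 h3.le
  have h5 : 2 / p * (V67 x (y 1) + (∑ j ∈ Finset.range N, V67 x (y (2 + j)) / p ^ j) / p) ≤
      2 / p * (V67 x (y 1) + (x * (1 - x) * (p / (p - 1))) / p) :=
    mul_le_mul_of_nonneg_left (by linarith) (by positivity)
  have h6 : x * (1 - x) + 2 / p * (V67 x (y 1) + (x * (1 - x) * (p / (p - 1))) / p) =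
      x * (1 - x) * (1 + 2 / (p * (p - 1))) + 2 / p * V67 x (y 1) := by
    field_simp
    ring
  have h7 : (1 : ℕ) + 1 = 2 := rfl
  rw [h7]
  linarith

/-- two exact terms -/
lemma S_two67 {p : ℝ} (hp : 1 < p) (hx : 0 ≤ x) (hx1 : x ≤ 1) (hy : ∀ a, 0 ≤ y a ∧ y a ≤ 1) (N : ℕ) :
    S67 p x (fun a => V67 x (y a)) (N + 2) ≤
      x * (1 - x) * (1 + 2 / (p ^ 2 * (p - 1))) + 2 / p * V67 x (y 1) + 2 / p ^ 2 * V67 x (y 2) := by
  have hw : 0 ≤ x * (1 - x) := mul_nonneg hx (by linarith)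
  have h1 := geo67 (v := fun a => V67 x (y a)) hp hw (fun a => V_le67 hx (hy a).1 hx1 (hy a).2) N 3
  have h2 : 0 < p - 1 := by linarith
  have h3 : 0 < p := by linarith
  unfold S67
  rw [shift_sum67 p (fun a => V67 x (y a)) (N + 1) 1, shift_sum67 p (fun a => V67 x (y a)) N (1 + 1)]
  have h7 : (1 : ℕ) + 1 = 2 := rfl
  have h8 : (2 : ℕ) + 1 = 3 := rfl
  rw [h7, h8]
  have h4 : (∑ j ∈ Finset.range N, V67 x (y (3 + j)) / p ^ j) / p ≤ (x * (1 - x) * (p / (p - 1))) / p :=
    div_le_div_of_nonneg_right h1 h3.le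
  have h9 : (V67 x (y 2) + (∑ j ∈ Finset.range N, V67 x (y (3 + j)) / p ^ j) / p) / p ≤
      (V67 x (y 2) + (x * (1 - x) * (p / (p - 1))) / p) / p := div_le_div_of_nonneg_right (by linarith) h3.le
  have h5 : 2 / p * (V67 x (y 1) + (V67 x (y 2) + (∑ j ∈ Finset.range N, V67 x (y (3 + j)) / p ^ j) / p) / p) ≤
      2 / p * (V67 x (y 1) + (V67 x (y 2) + (x * (1 - x) * (p / (p - 1))) / p) / p) :=
    mul_le_mul_of_nonneg_left (by linarith) (by positivity)
  have h6 : x * (1 - x) + 2 / p * (V67 x (y 1) + (V67 x (y 2) + (x * (1 - x) * (p / (p - 1))) / p) / p) =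
      x * (1 - x) * (1 + 2 / (p ^ 2 * (p - 1))) + 2 / p * V67 x (y 1) + 2 / p ^ 2 * V67 x (y 2) := by
    field_simp
    ring
  linarith

lemma S_mono67 {p : ℝ} (hp : 1 < p) (hx : 0 ≤ x) (hx1 : x ≤ 1) (hy : ∀ a, 0 ≤ y a ∧ y a ≤ 1) {N N' : ℕ} (h : N ≤ N') :
    S67 p x (fun a => V67 x (y a)) N ≤ S67 p x (fun a => V67 x (y a)) N' := by
  unfold S67
  have h1 : ∑ j ∈ Finset.range N, V67 x (y (1 + j)) / p ^ j ≤ ∑ j ∈ Finset.range N', V67 x (y (1 + j)) / p ^ j :=
    Finset.sum_le_sum_of_subset_of_nonneg (Finset.range_subset_range.mpr h) fun j _ _ =>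
      div_nonneg (V_nonneg67 hx (hy _).1 hx1 (hy _).2) (by positivity)
  have h2 : 0 < 2 / p := by positivity
  have := mul_le_mul_of_nonneg_left h1 h2.le
  linarith

/-- even bases, at least four -/
lemma S_even67 {n : ℕ} (hn : Even n) (h4 : 4 ≤ n) (hx : 0 ≤ x) (hx2 : x ≤ 1 / 2) (y0 : y 0 = x)
    (hy : ∀ a, y (a + 1) = Int.fract (n * y a)) (N : ℕ) :
    S67 n x (fun a => V67 x (y a)) N ≤ ((n : ℝ) + 1) * n * (n - 2) / (4 * ((n : ℝ) - 1) ^ 3) := by
  obtain ⟨d, hd⟩ : ∃ d : ℕ, n = 2 * d + 2 := by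
    obtain ⟨c, hc⟩ := hn
    exact ⟨c - 1, by omega⟩
  have hd1 : 1 ≤ d := by omega
  have hd' : (1 : ℝ) ≤ d := by exact_mod_cast hd1
  obtain ⟨p, hp⟩ : ∃ p : ℝ, p = n := ⟨_, rfl⟩
  have hpd : p = 2 * d + 2 := by rw [hp, hd]; push_cast; ring
  rw [← hp]
  have hp4 : 4 ≤ p := by rw [hp]; exact_mod_cast h4
  have hp1 : 1 < p := by linarith
  have hp0 : p - 1 ≠ 0 := by linarith
  have hpne : p ≠ 0 := by linarith
  have hyb : ∀ a, 0 ≤ y a ∧ y a ≤ 1 := by
    intro a
    cases a with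
    | zero =>
      rw [y0]
      constructor <;> linarith
    | succ a =>
      rw [hy]
      exact ⟨Int.fract_nonneg _, (Int.fract_lt_one _).le⟩
  have hx1 : x ≤ 1 := by linarith
  obtain ⟨s, hs⟩ : ∃ s : ℝ, s = (p - 2) / (2 * (p - 1)) := ⟨_, rfl⟩
  have hs0 : 0 < s := by
    rw [hs]
    exact div_pos (by linarith) (by linarith)
  have hs2 : s ≤ 1 / 2 := by
    rw [hs, div_le_div_iff₀ (by linarith) (by norm_num)]
    linarith
  have hS : (p + 1) * p * (p - 2) / (4 * (p - 1) ^ 3) = s * (1 - s) * ((p + 1) / (p - 1)) := by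
    rw [hs]
    field_simp
    ring
  rcases le_or_gt x s with hxs | hxs
  · refine (S_trivial67 hp1 hx hx1 hyb N).trans ?_
    rw [hS]
    refine mul_le_mul_of_nonneg_right ?_ (div_nonneg (by linarith) (by linarith))
    nlinarith
  · -- the first term
    have hv1 : V67 x (y 1) ≤ p / 2 * (x * (1 - 2 * x)) := by
      have h1 := hy 0
      rw [y0, zero_add, ← hp] at h1
      rcases eq_or_lt_of_le hx2 with h2 | h2
      · have h3 : Int.fract (p * x) = 0 := by
          have h5 : p * x = ((d + 1 : ℤ) : ℝ) := by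
            rw [hpd, h2]
            push_cast
            ring
          rw [h5, Int.fract_intCast]
        rw [h1, h3]
        have h6 := V_le_right67 x 0
        rw [h2] at h6 ⊢
        linarith
      · have h3 : Int.fract (p * x) = p * x - d := by
          rw [Int.fract_eq_iff]
          refine ⟨?_, ?_, d, by push_cast; ring⟩
          · have h5 : s * (2 * (p - 1)) = p - 2 := by
              rw [hs]
              field_simp
            nlinarith
          · nlinarith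
        rw [h1, h3]
        have h6 := V_le_left67 x (p * x - d)
        have h7 : (d : ℝ) = p / 2 - 1 := by linarith
        rw [h7] at h6 ⊢
        linarith
    rcases le_or_gt 6 p with h6 | h6
    · refine (S_mono67 hp1 hx hx1 hyb (Nat.le_succ N)).trans ((S_one67 hp1 hx hx1 hyb N).trans ?_)
      have h7 : 2 / p * V67 x (y 1) ≤ x * (1 - 2 * x) := by
        have h8 : 2 / p * V67 x (y 1) ≤ 2 / p * (p / 2 * (x * (1 - 2 * x))) :=
          mul_le_mul_of_nonneg_left hv1 (by positivity)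
        have h9 : 2 / p * (p / 2 * (x * (1 - 2 * x))) = x * (1 - 2 * x) := by field_simp
        linarith
      obtain ⟨c, hc⟩ : ∃ c : ℝ, c = 1 + 2 / (p * (p - 1)) := ⟨_, rfl⟩
      have hc0 : 0 < c := by
        rw [hc]
        have : 0 < p * (p - 1) := by nlinarith
        positivity
      have hc2 : c ≤ 2 := by
        rw [hc]
        have h8 : 2 / (p * (p - 1)) ≤ 1 := by
          rw [div_le_one (by nlinarith)]
          nlinarith
        linarith
      have hfs : (p + 1) * p * (p - 2) / (4 * (p - 1) ^ 3) = c * (s * (1 - s)) + s * (1 - 2 * s) := by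
        rw [hc, hs]
        field_simp
        ring
      have h5 : s * (2 * (p - 1)) = p - 2 := by
        rw [hs]
        field_simp
      have hk : c + 1 ≤ (c + 2) * (2 * s) := by
        have h9 : (p - 1) * (c + 1) ≤ (p - 1) * ((c + 2) * (2 * s)) := by
          have h10 : (p - 1) * ((c + 2) * (2 * s)) = (c + 2) * (p - 2) := by
            rw [← h5]
            ring
          rw [h10]
          nlinarith
        exact le_of_mul_le_mul_left h9 (by linarith)
      rw [hfs, ← hc]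
      have h11 : x * (1 - x) * c + x * (1 - 2 * x) - (c * (s * (1 - s)) + s * (1 - 2 * s)) =
          (x - s) * ((c + 1) - (c + 2) * (x + s)) := by ring
      have h12 : (x - s) * ((c + 1) - (c + 2) * (x + s)) ≤ 0 := by
        apply mul_nonpos_of_nonneg_of_nonpos (by linarith)
        nlinarith
      linarith
    · -- base four
      have hn4 : n = 4 := by
        have h7 : n < 6 := by
          have : (n : ℝ) < 6 := by rw [← hp]; exact h6
          exact_mod_cast this
        obtain ⟨c, hc⟩ := hn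
        omega
      have hp4' : p = 4 := by
        rw [hp, hn4]
        norm_num
      have hd1' : (d : ℝ) = 1 := by linarith
      have hs3 : s = 1 / 3 := by
        rw [hs, hp4']
        norm_num
      rw [hs3] at hxs
      subst hp4'
      rcases le_or_gt (3 / 8) x with h7 | h7
      · refine (S_mono67 hp1 hx hx1 hyb (Nat.le_succ N)).trans ((S_one67 hp1 hx hx1 hyb N).trans ?_)
        nlinarith
      · refine (S_mono67 hp1 hx hx1 hyb (Nat.le_add_right N 2)).trans ((S_two67 hp1 hx hx1 hyb N).trans ?_)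
        have h1 := hy 0
        rw [y0, zero_add, ← hp] at h1
        have h3 : Int.fract (4 * x) = 4 * x - 1 := by
          rw [Int.fract_eq_iff]
          exact ⟨by linarith, by linarith, 1, by push_cast; ring⟩
        rw [h3] at h1
        have h2 := hy 1
        rw [← hp, h1] at h2
        have h8 : Int.fract (4 * (4 * x - 1)) = 16 * x - 5 := by
          rw [Int.fract_eq_iff]
          exact ⟨by linarith, by linarith, 1, by push_cast; ring⟩
        rw [h8] at h2
        have h9 : (1 : ℕ) + 1 = 2 := rfl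
        rw [h9] at h2
        have h10 := V_le_left67 x (y 2)
        rw [h2] at h10 ⊢
        nlinarith

/-- base two -/
lemma S_binary67 (hx : 0 ≤ x) (hx2 : x ≤ 1 / 2) (y0 : y 0 = x) (hy : ∀ a, y (a + 1) = Int.fract (2 * y a)) (N : ℕ) :
    S67 2 x (fun a => V67 x (y a)) N ≤ 14 / 27 := by
  have hyb : ∀ a, 0 ≤ y a ∧ y a ≤ 1 := by
    intro a
    cases a with
    | zero =>
      rw [y0]
      constructor <;> linarith
    | succ a =>
      rw [hy]
      exact ⟨Int.fract_nonneg _, (Int.fract_lt_one _).le⟩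
  have hx1 : x ≤ 1 := by linarith
  obtain ⟨G, hG⟩ : ∃ G : ℝ, G = x * (3 / 2 - 2 * x) := ⟨_, rfl⟩
  have hG0 : 0 ≤ G := by
    rw [hG]
    exact mul_nonneg hx (by linarith)
  have hv : ∀ a, V67 x (y a) ≤ G := by
    intro a
    refine (V_le67 hx (hyb a).1 hx1 (hyb a).2).trans ?_
    rw [hG]
    exact mul_le_mul_of_nonneg_left (by linarith) hx
  have hvv : ∀ a, V67 x (y a) + V67 x (y (a + 1)) / 2 ≤ G := by
    intro a
    obtain ⟨u, hu⟩ : ∃ u, u = y a := ⟨_, rfl⟩
    obtain ⟨hu0, hu1⟩ := hyb a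
    rw [← hu] at hu0 hu1
    rw [hy, ← hu, hG]
    rcases lt_or_ge u (1 / 2) with h1 | h1
    · have h2 : Int.fract (2 * u) = 2 * u := Int.fract_eq_self.mpr ⟨by linarith, by linarith⟩
      rw [h2]
      have h3 := V_le_left67 x (2 * u)
      rcases le_total u x with h4 | h4
      · have h5 := V_le_right67 x u
        nlinarith
      · have h5 := V_le_left67 x u
        nlinarith
    · have h5 := V_le_left67 x u
      rcases eq_or_lt_of_le hu1 with h6 | h6
      · have h7 := V_le_right67 x (Int.fract (2 * u))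
        have h8 : Int.fract (2 * u) = 0 := by
          rw [h6]
          norm_num
        rw [h8] at h7 ⊢
        rw [h6] at h5 ⊢
        nlinarith
      · have h2 : Int.fract (2 * u) = 2 * u - 1 := by
          rw [Int.fract_eq_iff]
          exact ⟨by linarith, by linarith, 1, by push_cast; ring⟩
        rw [h2]
        rcases le_total u ((1 + x) / 2) with h7 | h7
        · have h8 := V_le_right67 x (2 * u - 1)
          nlinarith
        · have h8 := V_le_left67 x (2 * u - 1)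
          nlinarith
  have hpair := pair67 (v := fun a => V67 x (y a)) hG0 hv hvv
  have hv1 : V67 x (y 1) ≤ x * (1 - 2 * x) := by
    have h1 := hy 0
    rw [y0, zero_add] at h1
    rcases eq_or_lt_of_le hx2 with h2 | h2
    · have h3 : Int.fract (2 * x) = 0 := by
        rw [h2]
        norm_num
      rw [h1, h3]
      have h6 := V_le_right67 x 0
      rw [h2] at h6 ⊢
      linarith
    · rw [h1, Int.fract_eq_self.mpr ⟨by linarith, by linarith⟩]
      exact V_le_left67 x (2 * x)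
  have hq : S67 2 x (fun a => V67 x (y a)) (N + 1) ≤ x * (1 - x) + x * (1 - 2 * x) + 2 / 3 * G := by
    unfold S67
    rw [shift_sum67 2 (fun a => V67 x (y a)) N 1]
    have h1 := hpair N 2
    have h2 : (1 : ℕ) + 1 = 2 := rfl
    rw [h2]
    have h3 : (2 : ℝ) / 2 = 1 := by norm_num
    rw [h3]
    linarith
  have hmono : ∀ m : ℕ, S67 2 x (fun a => V67 x (y a)) N ≤ S67 2 x (fun a => V67 x (y a)) (N + m) := fun m =>
    S_mono67 one_lt_two hx hx1 hyb (Nat.le_add_right N m)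
  rcases le_or_gt x (1 / 3) with h1 | h1
  · refine (hmono 1).trans (hq.trans ?_)
    rw [hG]
    nlinarith
  · rcases le_or_gt (3 / 8) x with h2 | h2
    · refine (hmono 1).trans (hq.trans ?_)
      rw [hG]
      nlinarith
    · refine (hmono 3).trans ?_
      have e1 := hy 0
      rw [y0, zero_add, Int.fract_eq_self.mpr ⟨by linarith, by linarith⟩] at e1
      have e2 := hy 1
      have h8 : Int.fract (2 * (2 * x)) = 4 * x - 1 := by
        rw [Int.fract_eq_iff]
        exact ⟨by linarith, by linarith, 1, by push_cast; ring⟩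
      rw [e1, h8] at e2
      have e3 := hy 2
      have h9 : (1 : ℕ) + 1 = 2 := rfl
      rw [h9] at e2
      have h10 : Int.fract (2 * (4 * x - 1)) = 8 * x - 2 := by
        rw [Int.fract_eq_iff]
        exact ⟨by linarith, by linarith, 0, by push_cast; ring⟩
      rw [e2, h10] at e3
      have h11 : (2 : ℕ) + 1 = 3 := rfl
      rw [h11] at e3
      have v2 := V_le_left67 x (y 2)
      have v3 := V_le_left67 x (y 3)
      rw [e2] at v2
      rw [e3] at v3
      unfold S67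
      rw [show N + 3 = N + 1 + 1 + 1 from rfl, shift_sum67 2 (fun a => V67 x (y a)) (N + 1 + 1) 1,
        shift_sum67 2 (fun a => V67 x (y a)) (N + 1) (1 + 1), shift_sum67 2 (fun a => V67 x (y a)) N (1 + 1 + 1)]
      have h12 := hpair N (1 + 1 + 1 + 1)
      have h13 : (1 : ℕ) + 1 + 1 = 3 := rfl
      rw [h13] at h12 ⊢
      rw [h9, e2, e3]
      have h3 : (2 : ℝ) / 2 = 1 := by norm_num
      rw [h3]
      rw [hG] at h12
      nlinarith

end bounds

/-! ### the constants -/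

section pow

variable {θ : ℝ} {r p : ℕ}

lemma ps_swap67 (a b t : ℝ) : ps67 b a t = - ps67 a b t := by
  unfold ps67
  ring

lemma rho_ps67 (hr : 1 ≤ r) (hp : 0 < p) (hpow : θ ^ r = p) (α β : ℝ) (a : ℕ) :
    rho θ (ps67 α β) (r * a) = 1 / (p : ℝ) ^ a * ∫ u in (0 : ℝ)..1, ps67 α β u * ps67 ((p : ℝ) ^ a * α) ((p : ℝ) ^ a * β) u := by
  have h1 := rho_mul67 (q := 1) hp one_pos (Nat.coprime_one_right p) (by rw [hpow]; simp) (ps67 α β) a
  rw [h1]
  have h2 := cov_ps67 α β (P := p ^ a) (Q := 1 ^ a) (Nat.pow_pos hp) (by rw [one_pow]; exact one_pos)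
    (by rw [one_pow]; exact Nat.coprime_one_right _)
  rw [h2, one_pow]
  push_cast
  simp only [one_mul, mul_one]

lemma rho_V67 (hr : 1 ≤ r) (hp : 0 < p) (hpow : θ ^ r = p) (α β : ℝ) (a : ℕ) :
    rho θ (ps67 α β) (r * a) ≤ 1 / (p : ℝ) ^ a * V67 (Int.fract (β - α)) (Int.fract ((p : ℝ) ^ a * (β - α))) ∧
    rho θ (ps67 α β) (r * a) ≤ 1 / (p : ℝ) ^ a * V67 (Int.fract (α - β)) (Int.fract ((p : ℝ) ^ a * (α - β))) := by
  have hp' : (0 : ℝ) < p := by exact_mod_cast hp
  rw [rho_ps67 hr hp hpow]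
  constructor
  · refine mul_le_mul_of_nonneg_left ?_ (by positivity)
    have := cov_V67 α β ((p : ℝ) ^ a * α) ((p : ℝ) ^ a * β)
    rwa [← mul_sub] at this
  · refine mul_le_mul_of_nonneg_left ?_ (by positivity)
    have := cov_V67 β α ((p : ℝ) ^ a * β) ((p : ℝ) ^ a * α)
    rw [← mul_sub] at this
    refine le_trans (le_of_eq ?_) this
    refine intervalIntegral.integral_congr fun t _ => ?_
    show ps67 α β t * ps67 ((p : ℝ) ^ a * α) ((p : ℝ) ^ a * β) t =
      ps67 β α t * ps67 ((p : ℝ) ^ a * β) ((p : ℝ) ^ a * α) t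
    rw [ps_swap67 α β, ps_swap67 ((p : ℝ) ^ a * α)]
    ring

lemma y_step67 (p : ℕ) (s : ℝ) (a : ℕ) :
    Int.fract ((p : ℝ) ^ (a + 1) * s) = Int.fract (p * Int.fract ((p : ℝ) ^ a * s)) := by
  rw [Int.fract_eq_fract]
  refine ⟨p * ⌊(p : ℝ) ^ a * s⌋, ?_⟩
  have h := Int.floor_add_fract ((p : ℝ) ^ a * s)
  push_cast
  rw [pow_succ]
  have h2 : Int.fract ((p : ℝ) ^ a * s) = (p : ℝ) ^ a * s - ⌊(p : ℝ) ^ a * s⌋ := by linarith
  rw [h2]
  ring

/-- the upper bound for the variance in terms of the lengths -/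
lemma sig_le_S67 (hθ : 1 < θ) (hr : 1 ≤ r) (hp2 : 2 ≤ p) (hpow : θ ^ r = p)
    (hirr : ∀ j : ℕ, 1 ≤ j → j < r → Irrational (θ ^ j)) {B : ℝ}
    (hB : ∀ (x : ℝ) (y : ℕ → ℝ), 0 ≤ x → x ≤ 1 / 2 → y 0 = x → (∀ a, y (a + 1) = Int.fract (p * y a)) →
      ∀ N, S67 p x (fun a => V67 x (y a)) N ≤ B) : SigSq θ ≤ B := by
  have hp : 0 < p := by omega
  have hp' : (0 : ℝ) < p := by exact_mod_cast hp
  have hpow1 : θ ^ r = (p : ℝ) / (1 : ℕ) := by rw [hpow]; simp
  refine csSup_le ⟨_, 0, 1, le_rfl, zero_lt_one, le_rfl, rfl⟩ ?_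
  rintro _ ⟨α, β, h0, h1, h2, rfl⟩
  rw [chi_ps67 h0 h1.le h2]
  unfold sig
  rw [tsum_rho67 hr hpow1 hirr hθ]
  have hsum : Summable fun a : ℕ => rho θ (ps67 α β) (r * (a + 1)) := by
    have hx : (2 : ℝ) ≤ p := by exact_mod_cast hp2
    refine Summable.of_norm_bounded (geom67 hx).1 fun a => ?_
    rw [Real.norm_eq_abs, rho_mul67 (q := 1) hp one_pos (Nat.coprime_one_right p) hpow1]
    refine (cov_le67 α β (Nat.pow_pos hp) (by rw [one_pow]; exact one_pos)
      (by rw [one_pow]; exact Nat.coprime_one_right _)).trans (le_of_eq ?_)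
    push_cast
    simp
  have hr0 : rho θ (ps67 α β) 0 = Int.fract (β - α) * (1 - Int.fract (β - α)) := by
    rw [rho_zero, int_ps_sq67]
  -- the choice of the side
  obtain ⟨s, hs2, hs0, hsr⟩ : ∃ s : ℝ, Int.fract s ≤ 1 / 2 ∧
      rho θ (ps67 α β) 0 = Int.fract s * (1 - Int.fract s) ∧
      ∀ a : ℕ, rho θ (ps67 α β) (r * a) ≤ 1 / (p : ℝ) ^ a * V67 (Int.fract s) (Int.fract ((p : ℝ) ^ a * s)) := by
    rcases le_or_gt (Int.fract (β - α)) (1 / 2) with h | h
    · exact ⟨β - α, h, hr0, fun a => (rho_V67 hr hp hpow α β a).1⟩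
    · have h3 : Int.fract (β - α) ≠ 0 := by linarith
      have h4 : Int.fract (α - β) = 1 - Int.fract (β - α) := by
        have e : α - β = -(β - α) := by ring
        rw [e, Int.fract_neg h3]
      refine ⟨α - β, by rw [h4]; linarith, ?_, fun a => (rho_V67 hr hp hpow α β a).2⟩
      rw [h4, hr0]
      ring
  have hle : ∑' a : ℕ, rho θ (ps67 α β) (r * (a + 1)) ≤ (B - rho θ (ps67 α β) 0) / 2 := by
    refine hsum.tsum_le_of_sum_range_le fun N => ?_
    have h3 := hB (Int.fract s) (fun a => Int.fract ((p : ℝ) ^ a * s)) (Int.fract_nonneg s) hs2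
      (by simp) (fun a => y_step67 p s a) N
    unfold S67 at h3
    have h4 : ∑ a ∈ Finset.range N, rho θ (ps67 α β) (r * (a + 1)) ≤
        1 / (p : ℝ) * ∑ j ∈ Finset.range N, V67 (Int.fract s) (Int.fract ((p : ℝ) ^ (1 + j) * s)) / (p : ℝ) ^ j := by
      rw [Finset.mul_sum]
      refine Finset.sum_le_sum fun j _ => ?_
      refine (hsr (j + 1)).trans (le_of_eq ?_)
      rw [add_comm 1 j, pow_succ]
      field_simp
    have h5 : 2 / (p : ℝ) * ∑ j ∈ Finset.range N, V67 (Int.fract s) (Int.fract ((p : ℝ) ^ (1 + j) * s)) / (p : ℝ) ^ j =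
        2 * (1 / (p : ℝ) * ∑ j ∈ Finset.range N, V67 (Int.fract s) (Int.fract ((p : ℝ) ^ (1 + j) * s)) / (p : ℝ) ^ j) := by
      ring
    rw [h5] at h3
    rw [hs0]
    linarith
  linarith

/-- Fukuyama's constant for an even base, at least four. -/
theorem SigSq_even (hθ : 1 < θ) (hr : 1 ≤ r) (hpow : θ ^ r = p)
    (hirr : ∀ j : ℕ, 1 ≤ j → j < r → Irrational (θ ^ j)) (hp : Even p) (hp4 : 4 ≤ p) :
    SigSq θ = ((p : ℝ) + 1) * p * (p - 2) / (4 * ((p : ℝ) - 1) ^ 3) := by
  refine le_antisymm (sig_le_S67 hθ hr (by omega) hpow hirr fun x y h1 h2 h3 h4 N => S_even67 hp hp4 h1 h2 h3 h4 N) ?_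
  have hp' : (4 : ℝ) ≤ p := by exact_mod_cast hp4
  have hp0 : (p : ℝ) - 1 ≠ 0 := by linarith
  have hp0' : (p : ℝ) ≠ 0 := by linarith
  have hpow1 : θ ^ r = (p : ℝ) / (1 : ℕ) := by rw [hpow]; simp
  obtain ⟨d, hd⟩ : ∃ d : ℕ, p = 2 * d + 2 := by
    obtain ⟨c, hc⟩ := hp
    exact ⟨c - 1, by omega⟩
  have hpd : (p : ℝ) = 2 * d + 2 := by rw [hd]; push_cast; ring
  obtain ⟨s, hs⟩ : ∃ s : ℝ, s = ((p : ℝ) - 2) / (2 * ((p : ℝ) - 1)) := ⟨_, rfl⟩
  have hs0 : 0 < s := by
    rw [hs]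
    exact div_pos (by linarith) (by linarith)
  have hs1 : s < 1 := by
    rw [hs, div_lt_one (by linarith)]
    linarith
  have hps : (p : ℝ) * s = s + d := by
    have h1 : s * (2 * ((p : ℝ) - 1)) = (p : ℝ) - 2 := by
      rw [hs]
      field_simp
    linarith
  have hint : ∀ a : ℕ, ∃ m : ℤ, (p : ℝ) ^ a * s = s + m := by
    intro a
    induction a with
    | zero => exact ⟨0, by simp⟩
    | succ a ih =>
      obtain ⟨m, hm⟩ := ih
      refine ⟨d + p * m, ?_⟩
      have h2 : (p : ℝ) ^ (a + 1) * s = p * ((p : ℝ) ^ a * s) := by ring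
      rw [h2, hm, mul_add, hps]
      push_cast
      ring
  have h1 := sig_le67 hθ (α := 0) (β := s) le_rfl hs0 hs1.le
  refine le_trans (le_of_eq ?_) h1
  rw [chi_ps67 le_rfl hs0.le hs1.le]
  unfold sig
  have hfr : Int.fract (s - 0) = s := by rw [sub_zero, Int.fract_eq_self]; exact ⟨hs0.le, hs1⟩
  have hsq : ∫ u in (0 : ℝ)..1, ps67 0 s u * ps67 0 s u = s * (1 - s) := by
    have h2 := int_ps_sq67 0 s
    rw [hfr] at h2
    simp only [sq] at h2
    exact h2
  have hterm : ∀ a : ℕ, rho θ (ps67 0 s) (r * (a + 1)) = (4 * (s * (1 - s))) * (1 / 4 * (1 / (p : ℝ) ^ (a + 1))) := by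
    intro a
    rw [rho_ps67 hr (by omega) hpow]
    obtain ⟨m, hm⟩ := hint (a + 1)
    have h2 : ∀ u, ps67 ((p : ℝ) ^ (a + 1) * 0) ((p : ℝ) ^ (a + 1) * s) u = ps67 0 s u := by
      intro u
      rw [mul_zero, hm]
      unfold ps67
      have e : ⌊u - (s + m)⌋ = ⌊u - s⌋ - m := by
        rw [← Int.floor_sub_intCast]
        congr 1
        ring
      rw [e]
      push_cast
      ring
    simp only [h2]
    rw [hsq]
    ring
  rw [tsum_rho67 hr hpow1 hirr hθ]
  simp only [hterm]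
  rw [tsum_mul_left, (geom67 (by linarith : (2 : ℝ) ≤ p)).2, rho_zero, int_ps_sq67, hfr, hs]
  field_simp
  ring

/-- Fukuyama's constant for the base two. -/
theorem SigSq_two (hθ : 1 < θ) (hr : 1 ≤ r) (hpow : θ ^ r = 2)
    (hirr : ∀ j : ℕ, 1 ≤ j → j < r → Irrational (θ ^ j)) : SigSq θ = 14 / 27 := by
  have hpow' : θ ^ r = ((2 : ℕ) : ℝ) := by rw [hpow]; norm_num
  have hpow1 : θ ^ r = ((2 : ℕ) : ℝ) / (1 : ℕ) := by rw [hpow]; norm_num
  refine le_antisymm (sig_le_S67 hθ hr le_rfl hpow' hirr fun x y h1 h2 h3 h4 N => ?_) ?_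
  · have := S_binary67 h1 h2 h3 (fun a => by rw [h4]; norm_num) N
    simpa using this
  have hint : ∀ a : ℕ, (∃ m : ℤ, (2 : ℝ) ^ a * (1 / 3) = 1 / 3 + m) ∧ Even a ∨
      (∃ m : ℤ, (2 : ℝ) ^ a * (1 / 3) = 2 / 3 + m) ∧ ¬ Even a := by
    intro a
    induction a with
    | zero => exact Or.inl ⟨⟨0, by simp⟩, Even.zero⟩
    | succ a ih =>
      rcases ih with ⟨⟨m, hm⟩, ha⟩ | ⟨⟨m, hm⟩, ha⟩
      · refine Or.inr ⟨⟨2 * m, ?_⟩, by rw [Nat.even_add_one]; exact not_not.mpr ha⟩
        rw [pow_succ, mul_assoc, mul_comm 2 (1 / 3 : ℝ), ← mul_assoc, hm]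
        push_cast
        ring
      · refine Or.inl ⟨⟨2 * m + 1, ?_⟩, by rw [Nat.even_add_one]; exact ha⟩
        rw [pow_succ, mul_assoc, mul_comm 2 (1 / 3 : ℝ), ← mul_assoc, hm]
        push_cast
        ring
  have h1 := sig_le67 hθ (α := 0) (β := 1 / 3) le_rfl (by norm_num) (by norm_num)
  refine le_trans (le_of_eq ?_) h1
  rw [chi_ps67 le_rfl (by norm_num) (by norm_num)]
  unfold sig
  have hfr : Int.fract ((1 : ℝ) / 3 - 0) = 1 / 3 := by rw [sub_zero, Int.fract_eq_self]; norm_num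
  have hsq : ∫ u in (0 : ℝ)..1, ps67 0 (1 / 3) u * ps67 0 (1 / 3) u = 2 / 9 := by
    have h2 := int_ps_sq67 0 (1 / 3)
    rw [hfr] at h2
    simp only [sq] at h2
    rw [h2]
    norm_num
  have hcr : ∫ u in (0 : ℝ)..1, ps67 0 (1 / 3) u * ps67 0 (2 / 3) u = 1 / 9 := by
    have hid : ∀ u, ps67 0 (1 / 3) u * ps67 0 (2 / 3) u = 1 / 3 * ps67 0 (1 / 3) u - 1 / 3 * ps67 0 (2 / 3) u + 1 / 9 := by
      intro u
      have hc1 : chi 0 (1 / 3) u = ps67 0 (1 / 3) u := by rw [chi_ps67 le_rfl (by norm_num) (by norm_num)]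
      have hc2 : chi 0 (2 / 3) u = ps67 0 (2 / 3) u := by rw [chi_ps67 le_rfl (by norm_num) (by norm_num)]
      rw [← hc1, ← hc2]
      have hf := Int.fract_nonneg u
      unfold chi
      by_cases e1 : Int.fract u < 1 / 3
      · have e2 : Int.fract u < 2 / 3 := by linarith
        rw [if_pos ⟨hf, e1⟩, if_pos ⟨hf, e2⟩]
        norm_num
      · by_cases e2 : Int.fract u < 2 / 3
        · rw [if_neg (fun h => e1 h.2), if_pos ⟨hf, e2⟩]
          norm_num
        · rw [if_neg (fun h => e1 h.2), if_neg (fun h => e2 h.2)]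
          norm_num
    simp only [hid]
    have e1 : ∫ t in (0 : ℝ)..1, 1 / 3 * ps67 0 (1 / 3) t = 0 := by
      rw [intervalIntegral.integral_const_mul, int_ps67, mul_zero]
    have e2 : ∫ t in (0 : ℝ)..1, 1 / 3 * ps67 0 (2 / 3) t = 0 := by
      rw [intervalIntegral.integral_const_mul, int_ps67, mul_zero]
    rw [intervalIntegral.integral_add (((ii_ps67 0 (1 / 3) 0 1).const_mul _).sub ((ii_ps67 0 (2 / 3) 0 1).const_mul _))
      intervalIntegrable_const, intervalIntegral.integral_sub ((ii_ps67 0 (1 / 3) 0 1).const_mul _)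
      ((ii_ps67 0 (2 / 3) 0 1).const_mul _), e1, e2, intervalIntegral.integral_const]
    norm_num
  have hterm : ∀ a : ℕ, rho θ (ps67 0 (1 / 3)) (r * (a + 1)) = 1 / 6 * (1 / 2) ^ (a + 1) + 1 / 18 * (-1 / 2) ^ (a + 1) := by
    intro a
    rw [rho_ps67 hr two_pos hpow']
    have h2 : ∀ (s : ℝ) (m : ℤ), ((2 : ℕ) : ℝ) ^ (a + 1) * (1 / 3) = s + m →
        ∀ u, ps67 (((2 : ℕ) : ℝ) ^ (a + 1) * 0) (((2 : ℕ) : ℝ) ^ (a + 1) * (1 / 3)) u = ps67 0 s u := by
      intro s m hm u
      rw [mul_zero, hm]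
      unfold ps67
      have e : ⌊u - (s + m)⌋ = ⌊u - s⌋ - m := by
        rw [← Int.floor_sub_intCast]
        congr 1
        ring
      rw [e]
      push_cast
      ring
    have e0 : ((2 : ℕ) : ℝ) = 2 := by norm_num
    rcases hint (a + 1) with ⟨⟨m, hm⟩, ha⟩ | ⟨⟨m, hm⟩, ha⟩
    · simp only [h2 (1 / 3) m (by rw [e0]; exact hm)]
      rw [hsq, e0]
      have h3 : (-1 / 2 : ℝ) ^ (a + 1) = (1 / 2) ^ (a + 1) := by
        rw [neg_div, ha.neg_pow]
      rw [h3, one_div_pow]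
      ring
    · simp only [h2 (2 / 3) m (by rw [e0]; exact hm)]
      rw [hcr, e0]
      have h3 : (-1 / 2 : ℝ) ^ (a + 1) = - (1 / 2) ^ (a + 1) := by
        rw [neg_div, (Nat.not_even_iff_odd.mp ha).neg_pow]
      rw [h3, one_div_pow]
      ring
  rw [tsum_rho67 hr hpow1 hirr hθ]
  simp only [hterm]
  have f1 : (fun a : ℕ => (1 / 6 : ℝ) * (1 / 2) ^ (a + 1)) = fun a : ℕ => (1 / 12 : ℝ) * (1 / 2) ^ a := by
    funext a
    rw [pow_succ]
    ring
  have f2 : (fun a : ℕ => (1 / 18 : ℝ) * (-1 / 2) ^ (a + 1)) = fun a : ℕ => (-1 / 36 : ℝ) * (-1 / 2) ^ a := by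
    funext a
    rw [pow_succ]
    ring
  have g1 : Summable fun a : ℕ => ((1 : ℝ) / 2) ^ a := summable_geometric_of_lt_one (by norm_num) (by norm_num)
  have hn : ‖(-1 / 2 : ℝ)‖ < 1 := by
    rw [Real.norm_eq_abs, abs_lt]
    constructor <;> norm_num
  have g2 : Summable fun a : ℕ => (-1 / 2 : ℝ) ^ a := summable_geometric_of_norm_lt_one hn
  have s1 : Summable fun a : ℕ => (1 / 6 : ℝ) * (1 / 2) ^ (a + 1) := by
    rw [f1]
    exact g1.mul_left _
  have s2 : Summable fun a : ℕ => (1 / 18 : ℝ) * (-1 / 2) ^ (a + 1) := by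
    rw [f2]
    exact g2.mul_left _
  have t1 : ∑' a : ℕ, (1 / 6 : ℝ) * (1 / 2) ^ (a + 1) = 1 / 6 := by
    rw [f1, tsum_mul_left, tsum_geometric_of_lt_one (by norm_num) (by norm_num)]
    norm_num
  have t2 : ∑' a : ℕ, (1 / 18 : ℝ) * (-1 / 2) ^ (a + 1) = -1 / 54 := by
    rw [f2, tsum_mul_left, tsum_geometric_of_norm_lt_one hn]
    norm_num
  rw [s1.tsum_add s2, t1, t2, rho_zero, int_ps_sq67, hfr]
  norm_num

end pow

end Pool.Agent.Helper67.KD
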